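import Pool.Agent.Helper38.TH.Goals4
import Pool.Agent.Helper83.M3.QD
import Pool.Agent.Helper39.TH.TOSBG

/-! Packet TH-G4_D of project TH (helper38, MP_fc6b1e_nt).  The unweighted proof is by helper83
(`Pool/Agent/Helper83/M3/QD.lean`, adapted from helper30), the weight as in helper49's
`Pool/Agent/Helper49/TH/TOSB1.lean`. -/

set_option autoImplicit false

namespace Pool.Agent.Helper87.TH.G4D

open Finset
open Pool.Agent.Helper17.PP Pool.Agent.Helper17.PP0 Pool.Agent.Helper17.PP2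
open Pool.Agent.Helper30.PP (mem_blk nm_pos sum_swap decomp rsj)
open Pool.Agent.Helper30.PP2 (AA AA_norm Ph)
open Pool.Agent.Helper11.M3
open Pool.Agent.Helper83.M3
open Pool.Agent.Helper38.TH (HypG4 G4_D)
open Pool.Agent.Helper32.TH (Wz ps)
open Pool.Agent.Helper39.TH (FF DD FF_two DD_norm FF_norm)

variable {p : ℕ} {B B₀ k U Λ C : Type} [Field k] [AddCommGroup U] [Module k U]
    [AddCommGroup Λ] [Module k Λ] [AddCommGroup C] (S : Sys p B B₀ k U Λ C)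

open Classical in
lemma inner_eq [Algebra (ZMod p) k] [Fintype k] [Fintype C]
    (ψ : AddChar k ℂ) (N : B → Prop)
    (hN : (∀ q, N q ∧ S.spl q) ∨ (∀ q, N q → ¬ S.spl q)) (i j : ℕ)
    (t s y₁ : k) (X : ℝ) (hX : 0 < X)
    (x : U) (χ : AddChar Λ ℂ) (c y : B → k) (P r : Finset B)
    (hcR : cR₄ S N i j r) (u v : B → ℂ) :
    ∑ q ∈ P \ r, ∑ P₁ ∈ P \ insert q r,
      gg₄ S ψ N i j t s y₁ X x χ c y (insert P₁ (insert q r)) q P₁ * (u q * v P₁) =
    ∑ γ : C, (Fintype.card k : ℂ) ^ (rsj S j r).card *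
      ∑ P₁ ∈ S.blk i with N P₁, ∑ q ∈ S.blk j with S.spl q,
        (al₄ S ψ j y₁ x χ c y P r γ P₁ * v P₁) * (be₄ S ψ N i j t s x χ c y P r γ q * u q) *
              Ph S ψ t s 0 y₁ q P₁ *
              (Real.exp (-((S.N q : ℝ) * S.N P₁ / (X / S.nm r))) : ℂ) := by
  set h : B → B → ℂ := fun q P₁ => ∑ γ : C, (Fintype.card k : ℂ) ^ (rsj S j r).card *
            ((al₄ S ψ j y₁ x χ c y P r γ P₁ * v P₁) *
              (be₄ S ψ N i j t s x χ c y P r γ q * u q) *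
              Ph S ψ t s 0 y₁ q P₁ *
              (Real.exp (-((S.N q : ℝ) * S.N P₁ / (X / S.nm r))) : ℂ)) with hh
  have hq0 : ∀ q P₁, q ∉ P \ r → h q P₁ = 0 := by
    intro q P₁ hq
    rw [hh]
    refine sum_eq_zero fun γ _ => ?_
    unfold be₄
    rw [if_neg (fun h => hq h.1)]
    ring
  have hP0 : ∀ q P₁, P₁ ∉ P \ r → h q P₁ = 0 := by
    intro q P₁ hq
    rw [hh]
    refine sum_eq_zero fun γ _ => ?_
    unfold al₄
    rw [if_neg (fun h => hq h.1)]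
    ring
  have hgg : ∀ q ∈ P \ r, ∀ P₁ ∈ P \ insert q r,
      gg₄ S ψ N i j t s y₁ X x χ c y (insert P₁ (insert q r)) q P₁ * (u q * v P₁) =
        (if q ∈ (S.blk j).filter (fun q => S.spl q) then
          (if P₁ ∈ (S.blk i).filter (fun q => N q) then h q P₁ else 0) else 0) := by
    intro q hq P₁ hP
    rw [gg_eq₄ S ψ N hN i j t s y₁ X hX x χ c y P r hcR q P₁ hq hP, hh]
    split_ifs
    · rw [sum_mul]
      exact sum_congr rfl fun γ _ => by ring
    · rw [zero_mul]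
    · rw [zero_mul]
  have e1 : ∑ q ∈ P \ r, ∑ P₁ ∈ P \ insert q r,
      gg₄ S ψ N i j t s y₁ X x χ c y (insert P₁ (insert q r)) q P₁ * (u q * v P₁) =
      ∑ q ∈ P \ r, if q ∈ (S.blk j).filter (fun q => S.spl q) then
        ∑ P₁ ∈ P \ r, (if P₁ ∈ (S.blk i).filter (fun q => N q) then h q P₁ else 0)
        else 0 := by
    refine sum_congr rfl fun q hq => ?_
    rw [sum_congr rfl (hgg q hq)]
    split_ifs with h1
    · refine sum_subset (sdiff_subset_sdiff subset_rfl (subset_insert _ _)) ?_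
      intro P₁ h2 h3
      have h4 : P₁ = q := by
        by_contra h4
        refine h3 (mem_sdiff.2 ⟨(mem_sdiff.1 h2).1, fun h5 => ?_⟩)
        rcases mem_insert.1 h5 with h6 | h6
        · exact h4 h6
        · exact (mem_sdiff.1 h2).2 h6
      split_ifs with h5
      · rw [h4] at h5
        have h6 := mem_filter.1 h5
        have h7 := mem_filter.1 h1
        have h8 := (mem_blk S i q).1 h6.1
        have h9 := (mem_blk S j q).1 h7.1
        rcases hN with hN | hN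
        · rw [hh]
          refine sum_eq_zero fun γ _ => ?_
          unfold be₄
          rw [if_neg (fun h => by
            have := h.2.2 h6.2
            omega)]
          ring
        · exact absurd h7.2 (hN q h6.2)
      · rfl
    · simp
  rw [e1, sum_swap]
  have e3 : ∀ q ∈ (S.blk j).filter (fun q => S.spl q),
      (if q ∈ P \ r then ∑ P₁ ∈ P \ r,
        (if P₁ ∈ (S.blk i).filter (fun q => N q) then h q P₁ else 0) else 0) =
      ∑ P₁ ∈ (S.blk i).filter (fun q => N q), h q P₁ := by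
    intro q _
    split_ifs with h1
    · rw [sum_swap]
      refine sum_congr rfl fun P₁ _ => ?_
      split_ifs with h2
      · rfl
      · exact (hP0 q P₁ h2).symm
    · exact (sum_eq_zero fun P₁ _ => hq0 q P₁ h1).symm
  rw [sum_congr rfl e3, sum_comm]
  rw [hh]
  simp only [mul_sum]
  calc _ = ∑ P₁ ∈ (S.blk i).filter (fun q => N q), ∑ γ : C,
      ∑ q ∈ (S.blk j).filter (fun q => S.spl q),
            (Fintype.card k : ℂ) ^ (rsj S j r).card *
            ((al₄ S ψ j y₁ x χ c y P r γ P₁ * v P₁) *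
              (be₄ S ψ N i j t s x χ c y P r γ q * u q) *
              Ph S ψ t s 0 y₁ q P₁ *
              (Real.exp (-((S.N q : ℝ) * S.N P₁ / (X / S.nm r))) : ℂ)) :=
        sum_congr rfl fun P₁ _ => sum_comm
    _ = _ := sum_comm

open Classical in
lemma inner_le [Algebra (ZMod p) k] [Fintype k] [Fintype C] [Finite Λ]
    (ψ : AddChar k ℂ) (e : B → k) (N : B → Prop) (Y : AddSubgroup k) (g : ℝ → ℝ) (K : ℕ)
    (hH : Hyp₄ S ψ e N Y g K)
    (i j : ℕ) (hi : 1 ≤ i) (hj : 1 ≤ j)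
    (t s y₁ : k) (ht : t ≠ 0) (hy : y₁ ∈ Y) (hs : s ≠ 0 ∨ y₁ ≠ 0) (X : ℝ) (hX : 0 < X)
    (x : U) (χ : AddChar Λ ℂ) (c y : B → k) (P r : Finset B) (u v : B → ℂ)
    (hu : ∀ q, ‖u q‖ ≤ 1) (hv : ∀ q, ‖v q‖ ≤ 1) :
    ‖∑ q ∈ P \ r, ∑ P₁ ∈ P \ insert q r,
      gg₄ S ψ N i j t s y₁ X x χ c y (insert P₁ (insert q r)) q P₁ * (u q * v P₁)‖ ≤
    Fintype.card C * ((Fintype.card k : ℝ) ^ r.card *
      (K * 2 ^ (i + j) * (i + j) ^ K * (2 : ℝ) ^ (-(min i j : ℝ) / K) *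
        Real.exp (-(S.nm r / (2 * X / 2 ^ (i + j)))))) := by
  have hnm : (0 : ℝ) < S.nm r := by exact_mod_cast nm_pos S r
  have hN : (∀ q, N q ∧ S.spl q) ∨ (∀ q, N q → ¬ S.spl q) := hH.cas.imp id fun h => h.1
  by_cases hcR : cR₄ S N i j r
  · rw [inner_eq S ψ N hN i j t s y₁ X hX x χ c y P r hcR]
    refine (norm_sum_le _ _).trans ?_
    have h4 : (1 : ℝ) ≤ Fintype.card k := by exact_mod_cast Fintype.card_pos
    have h1 : ∀ γ ∈ (univ : Finset C), ‖(Fintype.card k : ℂ) ^ (rsj S j r).card *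
      ∑ P₁ ∈ S.blk i with N P₁, ∑ q ∈ S.blk j with S.spl q,
        (al₄ S ψ j y₁ x χ c y P r γ P₁ * v P₁) * (be₄ S ψ N i j t s x χ c y P r γ q * u q) *
              Ph S ψ t s 0 y₁ q P₁ *
              (Real.exp (-((S.N q : ℝ) * S.N P₁ / (X / S.nm r))) : ℂ)‖ ≤
        (Fintype.card k : ℝ) ^ r.card *
      (K * 2 ^ (i + j) * (i + j) ^ K * (2 : ℝ) ^ (-(min i j : ℝ) / K) *
        Real.exp (-(S.nm r / (2 * X / 2 ^ (i + j))))) := by
      intro γ _
      rw [norm_mul, norm_pow, Complex.norm_natCast]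
      have h5 : (rsj S j r).card ≤ r.card := card_filter_le _ _
      have a1 : ∀ P₁, ‖al₄ S ψ j y₁ x χ c y P r γ P₁ * v P₁‖ ≤ 1 := by
        intro P₁
        rw [norm_mul]
        exact mul_le_one₀ (al_norm₄ S ψ j y₁ x χ c y P r γ P₁) (norm_nonneg _) (hv P₁)
      have a2 : ∀ q, ‖be₄ S ψ N i j t s x χ c y P r γ q * u q‖ ≤ 1 := by
        intro q
        rw [norm_mul]
        exact mul_le_one₀ (be_norm₄ S ψ N i j t s x χ c y P r γ q) (norm_nonneg _) (hu q)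
      by_cases hc : i ≠ j ∨ ∀ q', N q' → ¬ S.spl q'
      · have h2 := hH.bl₅ i j t s y₁ (fun P₁ => al₄ S ψ j y₁ x χ c y P r γ P₁ * v P₁)
          (fun q => be₄ S ψ N i j t s x χ c y P r γ q * u q)
          (X / S.nm r) hi hj hc ht hy hs (by positivity) a1 a2
        have h3 : (2 : ℝ) ^ (i + j) / (2 * (X / S.nm r)) = S.nm r / (2 * X / 2 ^ (i + j)) := by
          field_simp
        rw [h3] at h2
        unfold Ph
        simp only [zero_mul, zero_add, add_zero]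
        exact mul_le_mul (pow_le_pow_right₀ h4 h5) h2 (norm_nonneg _) (by positivity)
      · push Not at hc
        obtain ⟨hij, q', h6, h7⟩ := hc
        have hN' : ∀ q, N q ∧ S.spl q := by
          rcases hN with hN | hN
          · exact hN
          · exact absurd h7 (hN q' h6)
        have h6 : ∑ P₁ ∈ S.blk i with N P₁, ∑ q ∈ S.blk j with S.spl q,
            (al₄ S ψ j y₁ x χ c y P r γ P₁ * v P₁) *
              (be₄ S ψ N i j t s x χ c y P r γ q * u q) *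
              Ph S ψ t s 0 y₁ q P₁ *
              (Real.exp (-((S.N q : ℝ) * S.N P₁ / (X / S.nm r))) : ℂ) = 0 := by
          refine sum_eq_zero fun P₁ _ => sum_eq_zero fun q _ => ?_
          unfold be₄
          rw [if_neg (fun h => by
            have := h.2.2 (hN' q).1
            omega)]
          ring
        rw [h6, norm_zero, mul_zero]
        positivity
    refine (sum_le_sum h1).trans ?_
    rw [sum_const, nsmul_eq_mul, card_univ]
  · have h1 : ∑ q ∈ P \ r, ∑ P₁ ∈ P \ insert q r,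
        gg₄ S ψ N i j t s y₁ X x χ c y (insert P₁ (insert q r)) q P₁ * (u q * v P₁) = 0 := by
      refine sum_eq_zero fun q hq => sum_eq_zero fun P₁ hP => ?_
      have h0 : gg₄ S ψ N i j t s y₁ X x χ c y (insert P₁ (insert q r)) q P₁ = 0 := by
        unfold gg₄
        rw [if_neg]
        rw [cond_iff₄ S N hN i j r q P₁ (mem_sdiff.1 hq).2 (mem_sdiff.1 hP).2]
        exact fun h => hcR h.1
      rw [h0, zero_mul]
    rw [h1, norm_zero]
    positivity

open Classical in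
/-- the weighted summand -/
noncomputable def gw [Algebra (ZMod p) k] [Fintype k] (I₀ : B → Prop) (Fz : Finset B → ℂ)
    (ψ : AddChar k ℂ) (N : B → Prop) (i j : ℕ) (t s y₁ : k) (X : ℝ)
    (x : U) (χ : AddChar Λ ℂ) (c y : B → k) (b : Finset B) (q P₁ : B) : ℂ :=
  if I₀ q then gg₄ S ψ N i j t s y₁ X x χ c y b q P₁ * Fz b else 0

open Classical in
lemma fixed_le (hdec : C_DEC) [Algebra (ZMod p) k] [Fact p.Prime] [Fintype k] [Fintype C]
    [Finite Λ] (V I₀ : B → Prop) (N : B → Prop) (hVs : ∀ q, N q → ¬ V q)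
    (hI : ∀ q, I₀ q → ¬ V q) (Fz : Finset B → ℂ) (Dz : Finset B → B → ℂ)
    (hFD : ∀ (r : Finset B) (q₁ q₂ : B), q₁ ∉ r → q₂ ∉ insert q₁ r → ¬ V q₁ → ¬ V q₂ →
      Fz (insert q₂ (insert q₁ r)) = Fz r * Dz r q₁ * Dz r q₂)
    (hD : ∀ r q, ‖Dz r q‖ ≤ 1) (hF : ∀ r, ‖Fz r‖ ≤ (p : ℝ) ^ r.card)
    (ψ : AddChar k ℂ) (e : B → k) (Y : AddSubgroup k) (g : ℝ → ℝ) (K : ℕ)
    (hH : Hyp₄ S ψ e N Y g K)
    (i j : ℕ) (hi : 1 ≤ i) (hj : 1 ≤ j)
    (t s y₁ : k) (ht : t ≠ 0) (hy : y₁ ∈ Y) (hs : s ≠ 0 ∨ y₁ ≠ 0) (X : ℝ) (hX : 0 < X)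
    (x : U) (χ : AddChar Λ ℂ) (c y : B → k) (P : Finset B) :
    ‖∑ b ∈ P.powerset with S.Fam b, ∑ q ∈ b with (Wv S b q ∧ S.bl q = j ∧ I₀ q),
      ∑ P₁ ∈ b with (Piv S N b P₁ ∧ P₁ ≠ q ∧ S.bl P₁ = i),
      (Fintype.card k : ℂ) ^ (rs₄ S b q P₁).card *
      ph S ψ χ b x (cutd S (S.bl q) q P₁ t c) (cute S (S.bl q) q P₁ s y₁ y) *
      (Fz b * (Real.exp (-(S.nm b / X)) : ℂ))‖ ≤
    ∑ r ∈ P.powerset, Fintype.card C * (((Fintype.card k : ℝ) * p) ^ r.card *
      (K * 2 ^ (i + j) * (i + j) ^ K * (2 : ℝ) ^ (-(min i j : ℝ) / K) *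
        Real.exp (-(S.nm r / (2 * X / 2 ^ (i + j)))))) := by
  have e1 : ∑ b ∈ P.powerset with S.Fam b, ∑ q ∈ b with (Wv S b q ∧ S.bl q = j ∧ I₀ q),
      ∑ P₁ ∈ b with (Piv S N b P₁ ∧ P₁ ≠ q ∧ S.bl P₁ = i),
      (Fintype.card k : ℂ) ^ (rs₄ S b q P₁).card *
      ph S ψ χ b x (cutd S (S.bl q) q P₁ t c) (cute S (S.bl q) q P₁ s y₁ y) *
      (Fz b * (Real.exp (-(S.nm b / X)) : ℂ)) =
      ∑ b ∈ P.powerset, ∑ q ∈ b, ∑ P₁ ∈ b,
        gw S I₀ Fz ψ N i j t s y₁ X x χ c y b q P₁ := by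
    rw [sum_filter]
    refine sum_congr rfl fun b _ => ?_
    by_cases h1 : S.Fam b
    · rw [if_pos h1, sum_filter]
      refine sum_congr rfl fun q _ => ?_
      by_cases h2 : Wv S b q ∧ S.bl q = j ∧ I₀ q
      · rw [if_pos h2, sum_filter]
        refine sum_congr rfl fun P₁ _ => ?_
        unfold gw gg₄
        rw [if_pos h2.2.2]
        by_cases h3 : Piv S N b P₁ ∧ P₁ ≠ q ∧ S.bl P₁ = i
        · rw [if_pos h3, if_pos ⟨h1, ⟨h2.1, h2.2.1⟩, h3⟩, h2.2.1]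
          ring
        · rw [if_neg h3, if_neg (fun h => h3 h.2.2), zero_mul]
      · rw [if_neg h2]
        refine (sum_eq_zero fun P₁ _ => ?_).symm
        unfold gw gg₄
        by_cases h4 : I₀ q
        · rw [if_pos h4, if_neg (fun h => h2 ⟨h.2.1.1, h.2.1.2, h4⟩), zero_mul]
        · rw [if_neg h4]
    · rw [if_neg h1]
      refine (sum_eq_zero fun q _ => sum_eq_zero fun P₁ _ => ?_).symm
      have h0 : gg₄ S ψ N i j t s y₁ X x χ c y b q P₁ = 0 := by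
        unfold gg₄
        rw [if_neg (fun h => h1 h.1)]
      unfold gw
      rw [h0, zero_mul, ite_self]
  rw [e1, decomp hdec P (gw S I₀ Fz ψ N i j t s y₁ X x χ c y) (fun b q => by
    have h0 : gg₄ S ψ N i j t s y₁ X x χ c y b q q = 0 := by
      unfold gg₄
      rw [if_neg (fun h => h.2.2.2.1 rfl)]
    unfold gw
    rw [h0, zero_mul, ite_self])]
  refine (norm_sum_le _ _).trans (sum_le_sum fun r _ => ?_)
  set u : B → ℂ := fun q => if I₀ q then Dz r q else 0 with hu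
  have hu1 : ∀ q, ‖u q‖ ≤ 1 := by
    intro q
    rw [hu]
    dsimp only
    split_ifs
    · exact hD r q
    · simp
  have e2 : ∑ q ∈ P \ r, ∑ P₁ ∈ P \ insert q r,
      gw S I₀ Fz ψ N i j t s y₁ X x χ c y (insert P₁ (insert q r)) q P₁ =
      Fz r * ∑ q ∈ P \ r, ∑ P₁ ∈ P \ insert q r,
        gg₄ S ψ N i j t s y₁ X x χ c y (insert P₁ (insert q r)) q P₁ *
          (u q * Dz r P₁) := by
    rw [mul_sum]
    refine sum_congr rfl fun q hq => ?_
    rw [mul_sum]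
    refine sum_congr rfl fun P₁ hP => ?_
    unfold gw
    by_cases h4 : I₀ q
    · rw [if_pos h4, hu]
      dsimp only
      rw [if_pos h4]
      by_cases h5 : V P₁
      · have h0 : gg₄ S ψ N i j t s y₁ X x χ c y (insert P₁ (insert q r)) q P₁ = 0 := by
          unfold gg₄
          rw [if_neg (fun h => hVs P₁ h.2.2.1.isN h5)]
        rw [h0]
        ring
      · rw [hFD r q P₁ (mem_sdiff.1 hq).2 (mem_sdiff.1 hP).2 (hI q h4) h5]
        ring
    · rw [if_neg h4, hu]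
      dsimp only
      rw [if_neg h4]
      ring
  rw [e2, norm_mul]
  calc ‖Fz r‖ * ‖∑ q ∈ P \ r, ∑ P₁ ∈ P \ insert q r,
        gg₄ S ψ N i j t s y₁ X x χ c y (insert P₁ (insert q r)) q P₁ * (u q * Dz r P₁)‖
      ≤ (p : ℝ) ^ r.card * (Fintype.card C * ((Fintype.card k : ℝ) ^ r.card *
      (K * 2 ^ (i + j) * (i + j) ^ K * (2 : ℝ) ^ (-(min i j : ℝ) / K) *
        Real.exp (-(S.nm r / (2 * X / 2 ^ (i + j))))))) := by
        refine mul_le_mul (hF r) ?_ (norm_nonneg _) (by positivity)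
        exact inner_le S ψ e N Y g K hH i j hi hj t s y₁ ht hy hs X hX x χ c y P r u (Dz r)
          hu1 (hD r)
    _ = _ := by
        rw [mul_pow]
        ring

open Classical in
lemma total_le (hdec : C_DEC) [Algebra (ZMod p) k] [Fact p.Prime] [Fintype k] [Fintype C]
    [Fintype U] [Fintype Λ] (V I₀ : B → Prop) (N : B → Prop) (hVs : ∀ q, N q → ¬ V q)
    (hI : ∀ q, I₀ q → ¬ V q) (Fz : Finset B → ℂ) (Dz : Finset B → B → ℂ)
    (hFD : ∀ (r : Finset B) (q₁ q₂ : B), q₁ ∉ r → q₂ ∉ insert q₁ r → ¬ V q₁ → ¬ V q₂ →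
      Fz (insert q₂ (insert q₁ r)) = Fz r * Dz r q₁ * Dz r q₂)
    (hD : ∀ r q, ‖Dz r q‖ ≤ 1) (hF : ∀ r, ‖Fz r‖ ≤ (p : ℝ) ^ r.card)
    (ψ : AddChar k ℂ) (e : B → k) (Y : AddSubgroup k) (g : ℝ → ℝ) (K : ℕ)
    (hH : Hyp₄ S ψ e N Y g K)
    (i j : ℕ) (hi : 1 ≤ i) (hj : 1 ≤ j)
    (t s y₁ : k) (ht : t ≠ 0) (hy : y₁ ∈ Y) (hs : s ≠ 0 ∨ y₁ ≠ 0) (X : ℝ) (hX : 0 < X)
    (P : Finset B) :
    ‖∑ b ∈ P.powerset with S.Fam b, ∑ q ∈ b with (Wv S b q ∧ S.bl q = j ∧ I₀ q),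
      ∑ P₁ ∈ b with (Piv S N b P₁ ∧ P₁ ≠ q ∧ S.bl P₁ = i),
        Fz b * ful₄ S ψ P b q P₁ t s y₁ (fun _ _ _ ↦ True) *
          (Real.exp (-(S.nm b / X)) : ℂ)‖ ≤
    Fintype.card U *
    ∑ r ∈ P.powerset, Fintype.card C * (((Fintype.card k : ℝ) * p) ^ r.card *
      (K * 2 ^ (i + j) * (i + j) ^ K * (2 : ℝ) ^ (-(min i j : ℝ) / K) *
        Real.exp (-(S.nm r / (2 * X / 2 ^ (i + j)))))) := by
  set M₁ := ∑ r ∈ P.powerset, Fintype.card C * (((Fintype.card k : ℝ) * p) ^ r.card *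
      (K * 2 ^ (i + j) * (i + j) ^ K * (2 : ℝ) ^ (-(min i j : ℝ) / K) *
        Real.exp (-(S.nm r / (2 * X / 2 ^ (i + j)))))) with hM
  have hM0 : 0 ≤ M₁ := by
    rw [hM]
    positivity
  set Z : Finset (U × AddChar Λ ℂ × (B → k) × (B → k)) :=
    (univ : Finset U) ×ˢ (univ : Finset (AddChar Λ ℂ)) ×ˢ (lab k P) ×ˢ (lab k P) with hZ
  have hlab : 0 < (lab k P).card := card_pos.2 ⟨0, mem_lab.2 fun _ _ => rfl⟩
  have e1 : ∑ b ∈ P.powerset with S.Fam b, ∑ q ∈ b with (Wv S b q ∧ S.bl q = j ∧ I₀ q),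
      ∑ P₁ ∈ b with (Piv S N b P₁ ∧ P₁ ≠ q ∧ S.bl P₁ = i),
        Fz b * ful₄ S ψ P b q P₁ t s y₁ (fun _ _ _ ↦ True) *
          (Real.exp (-(S.nm b / X)) : ℂ) =
      ∑ z ∈ Z, (1 / (Fintype.card Λ * ((lab k P).card : ℂ) ^ 2)) *
      ∑ b ∈ P.powerset with S.Fam b, ∑ q ∈ b with (Wv S b q ∧ S.bl q = j ∧ I₀ q),
      ∑ P₁ ∈ b with (Piv S N b P₁ ∧ P₁ ≠ q ∧ S.bl P₁ = i),
      (Fintype.card k : ℂ) ^ (rs₄ S b q P₁).card *
      ph S ψ z.2.1 b z.1 (cutd S (S.bl q) q P₁ t z.2.2.1)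
        (cute S (S.bl q) q P₁ s y₁ z.2.2.2) *
      (Fz b * (Real.exp (-(S.nm b / X)) : ℂ)) := by
    have e0 : ∀ (b : Finset B) (q P₁ : B),
        Fz b * ful₄ S ψ P b q P₁ t s y₁ (fun _ _ _ ↦ True) *
          (Real.exp (-(S.nm b / X)) : ℂ) =
        ∑ z ∈ Z, (1 / (Fintype.card Λ * ((lab k P).card : ℂ) ^ 2)) *
          ((Fintype.card k : ℂ) ^ (rs₄ S b q P₁).card *
      ph S ψ z.2.1 b z.1 (cutd S (S.bl q) q P₁ t z.2.2.1)
        (cute S (S.bl q) q P₁ s y₁ z.2.2.2) *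
      (Fz b * (Real.exp (-(S.nm b / X)) : ℂ))) := by
      intro b q P₁
      rw [← ful_eq₄ S ψ P b q P₁ t s y₁ (Fz b * (Real.exp (-(S.nm b / X)) : ℂ))]
      ring
    simp only [e0, mul_sum]
    calc _ = ∑ b ∈ P.powerset with S.Fam b, ∑ z ∈ Z,
        ∑ q ∈ b with (Wv S b q ∧ S.bl q = j ∧ I₀ q),
          ∑ P₁ ∈ b with (Piv S N b P₁ ∧ P₁ ≠ q ∧ S.bl P₁ = i),
          (1 / (Fintype.card Λ * ((lab k P).card : ℂ) ^ 2)) *
          ((Fintype.card k : ℂ) ^ (rs₄ S b q P₁).card *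
      ph S ψ z.2.1 b z.1 (cutd S (S.bl q) q P₁ t z.2.2.1)
        (cute S (S.bl q) q P₁ s y₁ z.2.2.2) *
      (Fz b * (Real.exp (-(S.nm b / X)) : ℂ))) := by
          refine sum_congr rfl fun b _ => ?_
          exact Eq.trans (sum_congr rfl fun q _ => sum_comm) sum_comm
      _ = _ := sum_comm
  rw [e1]
  refine (norm_sum_le _ _).trans ?_
  have h1 : ∀ z ∈ Z, ‖(1 / (Fintype.card Λ * ((lab k P).card : ℂ) ^ 2)) *
      ∑ b ∈ P.powerset with S.Fam b, ∑ q ∈ b with (Wv S b q ∧ S.bl q = j ∧ I₀ q),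
      ∑ P₁ ∈ b with (Piv S N b P₁ ∧ P₁ ≠ q ∧ S.bl P₁ = i),
      (Fintype.card k : ℂ) ^ (rs₄ S b q P₁).card *
      ph S ψ z.2.1 b z.1 (cutd S (S.bl q) q P₁ t z.2.2.1)
        (cute S (S.bl q) q P₁ s y₁ z.2.2.2) *
      (Fz b * (Real.exp (-(S.nm b / X)) : ℂ))‖ ≤
      1 / (Fintype.card Λ * ((lab k P).card : ℝ) ^ 2) * M₁ := by
    intro z hz
    rw [norm_mul, norm_div, norm_one, norm_mul, norm_pow, Complex.norm_natCast,
      Complex.norm_natCast]
    exact mul_le_mul_of_nonneg_left (fixed_le S hdec V I₀ N hVs hI Fz Dz hFD hD hF ψ e Y g K hH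
      i j hi hj t s y₁ ht hy hs X hX z.1 z.2.1 z.2.2.1 z.2.2.2 P) (by positivity)
  refine (sum_le_sum h1).trans ?_
  rw [sum_const, nsmul_eq_mul]
  have h3 : Z.card = Fintype.card U * (Fintype.card Λ *
      ((lab k P).card * (lab k P).card)) := by
    rw [hZ, card_product, card_product, card_product, card_univ, card_univ, AddChar.card_eq]
  have h4 : (Z.card : ℝ) = Fintype.card U *
      (Fintype.card Λ * ((lab k P).card : ℝ) ^ 2) := by
    rw [h3]
    push_cast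
    ring
  have h7 : (0 : ℝ) < (lab k P).card := by exact_mod_cast hlab
  have h8 : (0 : ℝ) < Fintype.card Λ := by exact_mod_cast Fintype.card_pos
  rw [h4]
  apply le_of_eq
  field_simp

open Classical in
/-- **G4_D**. -/
theorem g4_d : Pool.Agent.Helper38.TH.G4_D := by
  intro p _ B B₀ k U Λ C _ _ _ _ _ _ _ _ _ _ _ S ψ e N g K hG
  have hH : Hyp₄ S ψ e N ⊥ g K := hG.toHyp₄
  have hdec : C_DEC := Pool.Agent.Helper22.PP.c_dec
  have : Fintype C := Fintype.ofFinite C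
  set n0 := Fintype.card k * p * K with hn0
  set C1 : ℕ := 4 * Fintype.card U * Fintype.card C * K ^ 3 * 3 ^ n0
    with hC1
  refine ⟨C1 + n0, fun V I₀ u₀ h z hNV hIV hh i j t s X P hi hj ht hs hX => ?_⟩
  have hX0 : 0 < X := by linarith
  have hp1 : 1 ≤ p := (Fact.out : p.Prime).one_le
  have hp1' : (1 : ℝ) ≤ p := by exact_mod_cast hp1
  have hmain := total_le S hdec V I₀ N hNV hIV (Wz S (ps ψ u₀) V h z) (DD S V (ps ψ u₀) z)
    (fun r q₁ q₂ h1 h2 v1 v2 => FF_two S V (ps ψ u₀) h z r q₁ q₂ h1 h2 v1 v2)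
    (DD_norm S V (ps ψ u₀) z) (FF_norm S V (ps ψ u₀) h hh z) ψ e ⊥ g K hH i j hi hj t s 0 ht
    (AddSubgroup.mem_bot.2 rfl) (Or.inl hs) X hX0 P
  refine hmain.trans ?_
  set Y : ℝ := 2 * X / 2 ^ (i + j) with hY
  have hY0 : 0 < Y := by positivity
  have h2ij : (2 : ℝ) ≤ 2 ^ (i + j) := by
    calc (2 : ℝ) = 2 ^ 1 := by norm_num
      _ ≤ 2 ^ (i + j) := pow_le_pow_right₀ (by norm_num) (by omega)
  have hYX : Y ≤ X := by
    rw [hY, div_le_iff₀ (by positivity)]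
    nlinarith
  set w : ℝ := (2 : ℝ) ^ (-(min i j : ℝ) / K) with hw
  have hw0 : 0 ≤ w := by positivity
  have hQ1 : 1 ≤ Fintype.card k := Fintype.card_pos
  have hQ1' : (1 : ℝ) ≤ Fintype.card k := by exact_mod_cast hQ1
  have hpQ : (p : ℝ) ≤ Fintype.card k := by
    have h1 : Fintype.card (ZMod p) ≤ Fintype.card k :=
      Fintype.card_le_of_injective _ (algebraMap (ZMod p) k).injective
    rw [ZMod.card] at h1
    exact_mod_cast h1
  have hK1 : (1 : ℝ) ≤ K := by exact_mod_cast hH.one_le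
  have hgX : 1 ≤ g X := hH.g_one X
  have hgY : g Y ≤ K * g X := hH.g_mono Y X hYX
  have h1 := hG.htG (fun _ => Fintype.card k * p) (fun q => ⟨by positivity, by nlinarith⟩)
    Y hY0 P
  simp only [prod_const] at h1
  have h2 : ∑ q ∈ S.upto Y, ((Fintype.card k : ℝ) * p - 1) / S.N q ≤
      n0 * (1 + Real.log (lg X + 1)) := by
    have h3 := upto_sum₄ S ψ g K hH.toHypW X Y hYX
    have h4 : ∑ q ∈ S.upto Y, ((Fintype.card k : ℝ) * p - 1) / S.N q ≤
        ((Fintype.card k : ℝ) * p) * ∑ q ∈ S.upto Y, (1 : ℝ) / S.N q := by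
      rw [mul_sum]
      refine sum_le_sum fun q _ => ?_
      rw [mul_one_div]
      exact div_le_div_of_nonneg_right (by linarith) (by positivity)
    refine h4.trans ?_
    rw [hn0]
    push_cast
    rw [mul_assoc ((Fintype.card k : ℝ) * p)]
    exact mul_le_mul_of_nonneg_left h3 (by positivity)
  have hL0 : (0 : ℝ) < (lg X : ℝ) + 1 := by positivity
  have h3 : Real.exp (∑ q ∈ S.upto Y, ((Fintype.card k : ℝ) * p - 1) / S.N q) ≤
      3 ^ n0 * ((lg X : ℝ) + 2) ^ n0 := by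
    calc _ ≤ Real.exp (n0 * (1 + Real.log (lg X + 1))) := Real.exp_le_exp.2 h2
      _ = (Real.exp 1 * (lg X + 1)) ^ n0 := by
        rw [Real.exp_nat_mul, Real.exp_add, Real.exp_log hL0]
      _ ≤ (3 * ((lg X : ℝ) + 2)) ^ n0 := by
        have h4 : Real.exp 1 ≤ 3 := by
          have := Real.exp_one_lt_d9
          linarith
        refine pow_le_pow_left₀ (by positivity) ?_ _
        refine mul_le_mul h4 (by linarith) hL0.le (by norm_num)
      _ = _ := by rw [mul_pow]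
  have hmin : min 1 Y ≤ 2 * min 1 (X / 2 ^ (i + j)) := by
    have h5 : Y = 2 * (X / 2 ^ (i + j)) := by
      rw [hY]
      ring
    rw [h5]
    have h6 : 0 < X / 2 ^ (i + j) := by positivity
    rcases le_total 1 (X / 2 ^ (i + j)) with h7 | h7
    · rw [min_eq_left h7]
      exact (min_le_left _ _).trans (by norm_num)
    · rw [min_eq_right h7]
      exact min_le_right _ _
  set mm : ℝ := min 1 (X / 2 ^ (i + j)) with hmm
  have hmm0 : 0 ≤ mm := by
    rw [hmm]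
    exact le_min (by norm_num) (by positivity)
  -- the sum over `r`
  have h8 : ∑ r ∈ P.powerset, Fintype.card C * (((Fintype.card k : ℝ) * p) ^ r.card *
      (K * 2 ^ (i + j) * (i + j) ^ K * w * Real.exp (-(S.nm r / Y)))) ≤
      Fintype.card C * (K * 2 ^ (i + j) * (i + j) ^ K * w) *
        (K * (Y * (2 * mm) * (K * g X)) * (3 ^ n0 * ((lg X : ℝ) + 2) ^ n0)) := by
    have e1 : ∑ r ∈ P.powerset, Fintype.card C * (((Fintype.card k : ℝ) * p) ^ r.card *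
        (K * 2 ^ (i + j) * (i + j) ^ K * w * Real.exp (-(S.nm r / Y)))) =
        Fintype.card C * (K * 2 ^ (i + j) * (i + j) ^ K * w) *
        ∑ r ∈ P.powerset, ((Fintype.card k : ℝ) * p) ^ r.card * Real.exp (-(S.nm r / Y)) := by
      rw [mul_sum]
      exact sum_congr rfl fun r _ => by ring
    rw [e1]
    refine mul_le_mul_of_nonneg_left ?_ (by positivity)
    refine h1.trans ?_
    have hgY0 : 0 ≤ g Y := le_trans (by norm_num) (hH.g_one Y)
    have h9 : Y * min 1 Y * g Y ≤ Y * (2 * mm) * (K * g X) := by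
      have h10 : 0 ≤ min 1 Y := le_min (by norm_num) hY0.le
      gcongr
    have h11 : 0 ≤ Y * min 1 Y * g Y := by
      have h10 : 0 ≤ min 1 Y := le_min (by norm_num) hY0.le
      positivity
    refine mul_le_mul ?_ h3 (Real.exp_pos _).le ?_
    · exact mul_le_mul_of_nonneg_left h9 (by positivity)
    · have : 0 ≤ Y * (2 * mm) * (K * g X) := h11.trans h9
      positivity
  refine (mul_le_mul_of_nonneg_left h8 (by positivity)).trans ?_
  have h12 : (2 : ℝ) ^ (i + j) * Y = 2 * X := by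
    rw [hY]
    field_simp
  have h13 : (Fintype.card U : ℝ) * (Fintype.card C *
      (K * 2 ^ (i + j) * (i + j) ^ K * w) *
        (K * (Y * (2 * mm) * (K * g X)) * (3 ^ n0 * ((lg X : ℝ) + 2) ^ n0))) =
      (C1 : ℝ) * ((lg X : ℝ) + 2) ^ n0 * (i + j) ^ K * w * mm * (X * g X) := by
    rw [hC1]
    push_cast
    linear_combination ((Fintype.card U : ℝ) * Fintype.card C * K ^ 3 *
      (i + j) ^ K * w * 2 * mm * g X * 3 ^ n0 * ((lg X : ℝ) + 2) ^ n0) * h12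
  rw [h13]
  have h14 : (C1 : ℝ) ≤ ((C1 + n0 : ℕ) : ℝ) := by
    push_cast
    have : (0 : ℝ) ≤ n0 := Nat.cast_nonneg _
    linarith
  have h15 : ((lg X : ℝ) + 2) ^ n0 ≤ ((lg X : ℝ) + 2) ^ (C1 + n0) := by
    refine pow_le_pow_right₀ ?_ (by omega)
    have : (0 : ℝ) ≤ lg X := Nat.cast_nonneg _
    linarith
  have h16 : 0 ≤ X * g X := by positivity
  gcongr

end Pool.Agent.Helper87.TH.G4D

/-- The packet. -/
theorem Pool.Agent.Helper87.TH.g4_d : Pool.Agent.Helper38.TH.G4_D :=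
  Pool.Agent.Helper87.TH.G4D.g4_d
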