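import Pool.Agent.Helper38.TH.GoalsA
import Pool.Agent.Helper19.M3.SOSZ
import Pool.Agent.Helper83.PP.CLAB
import Pool.Agent.Helper22.PP.CDEC

set_option autoImplicit false

/-!
# Project TH (MP_fc6b1e_nt), packet TH-T_OSZG: at most one label outside `V` in the blocks `≥ T`
-/

namespace Pool.Agent.Helper87.TH

open Finset Pool.Agent.Helper17.PP Pool.Agent.Helper17.PP0 Pool.Agent.Helper17.PP2
open Pool.Agent.Helper11.M3 Pool.Agent.Helper38.TH
open Pool.Agent.Helper17.PP0.SML (N_pos bl_pos mem_below mem_blk mem_upto le_N N_lt filter_le)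
open Pool.Agent.Helper17.PP0.MNS (pow_lg_le nm_erase)
open Pool.Agent.Helper74.PP2 (norm_ph card0 two_le_card)
open Pool.Agent.Helper19.M3 (ind ind_nonneg sum_ind sum_ind_erase bern below_sum)

section count

variable {p : ℕ} [Fact p.Prime] {B B₀ k U Λ C : Type} [Field k] [Fintype k] [Algebra (ZMod p) k]
    [AddCommGroup U] [Module k U] [Fintype U] [AddCommGroup Λ] [Module k Λ] [Fintype Λ]
    [AddCommGroup C] (S : Sys p B B₀ k U Λ C) (V : B → Prop)

open Classical in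
/-- the multiplicative function -/
noncomputable def fz (T j : ℕ) (q : B) : ℝ :=
  if S.spl q then (if S.bl q < T then (Fintype.card k : ℝ) else
    if S.bl q = j then 1 else
      if V q then (if S.bl q < j then (Fintype.card k : ℝ) else 1) else
        (3 / 2) * (1 / (Fintype.card k : ℝ))) else 1

omit [Fact (Nat.Prime p)] [Algebra (ZMod p) k] [Fintype U] [Fintype Λ] in
lemma fz_nonneg (T j : ℕ) (q : B) : 0 ≤ fz S V T j q := by
  unfold fz
  split_ifs <;> positivity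

omit [Fact (Nat.Prime p)] [Algebra (ZMod p) k] [Fintype U] [Fintype Λ] in
lemma fz_le (T j : ℕ) (q : B) : fz S V T j q ≤ Fintype.card k := by
  have h := two_le_card (k := k)
  have h1 : 1 / (Fintype.card k : ℝ) ≤ 1 / 2 := one_div_le_one_div_of_le (by norm_num) h
  unfold fz
  split_ifs <;> linarith

omit [Fact (Nat.Prime p)] [Algebra (ZMod p) k] [Fintype U] [Fintype Λ] in
open Classical in
lemma prod_fz (T : ℕ) (b : Finset B) (q : B) (hT : T ≤ S.bl q) :
    ∏ q' ∈ b.erase q, fz S V T (S.bl q) q' =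
      (Fintype.card k : ℝ) ^ (S.rs b q).card *
        ((1 / (Fintype.card k : ℝ)) ^
          ((b.erase q).filter fun q' => S.spl q' ∧ ¬ V q' ∧ T ≤ S.bl q' ∧ S.bl q' < S.bl q).card *
        ((3 / 2) * (1 / (Fintype.card k : ℝ))) ^
          ((b.erase q).filter fun q' => S.spl q' ∧ ¬ V q' ∧ T ≤ S.bl q' ∧
            S.bl q' ≠ S.bl q).card) := by
  have h := two_le_card (k := k)
  unfold Sys.rs
  rw [← Finset.prod_const, ← Finset.prod_const, ← Finset.prod_const, Finset.prod_filter,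
    Finset.prod_filter, Finset.prod_filter, ← Finset.prod_mul_distrib, ← Finset.prod_mul_distrib]
  refine Finset.prod_congr rfl fun q' _ => ?_
  unfold fz
  by_cases h1 : S.spl q'
  · by_cases h2 : S.bl q' < T
    · have h3 : S.bl q' < S.bl q := lt_of_lt_of_le h2 hT
      rw [if_pos h1, if_pos h2, if_pos ⟨h1, h3⟩, if_neg (fun h4 => by omega),
        if_neg (fun h4 => by omega)]
      ring
    · have h2' : T ≤ S.bl q' := not_lt.1 h2
      by_cases hV : V q'
      · rcases lt_trichotomy (S.bl q') (S.bl q) with h3 | h3 | h3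
        · rw [if_pos h1, if_neg h2, if_neg h3.ne, if_pos hV, if_pos h3, if_pos ⟨h1, h3⟩,
            if_neg (fun h4 => h4.2.1 hV), if_neg (fun h4 => h4.2.1 hV)]
          ring
        · rw [if_pos h1, if_neg h2, if_pos h3, if_neg (fun h4 => by omega),
            if_neg (fun h4 => h4.2.1 hV), if_neg (fun h4 => h4.2.1 hV)]
          ring
        · rw [if_pos h1, if_neg h2, if_neg h3.ne', if_pos hV, if_neg (by omega),
            if_neg (fun h4 => by omega), if_neg (fun h4 => h4.2.1 hV),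
            if_neg (fun h4 => h4.2.1 hV)]
          ring
      · rcases lt_trichotomy (S.bl q') (S.bl q) with h3 | h3 | h3
        · rw [if_pos h1, if_neg h2, if_neg h3.ne, if_neg hV, if_pos ⟨h1, h3⟩,
            if_pos ⟨h1, hV, h2', h3⟩, if_pos ⟨h1, hV, h2', h3.ne⟩]
          field_simp
        · rw [if_pos h1, if_neg h2, if_pos h3, if_neg (fun h4 => by omega),
            if_neg (fun h4 => by omega), if_neg (fun h4 => h4.2.2.2 h3)]
          ring
        · rw [if_pos h1, if_neg h2, if_neg h3.ne', if_neg hV, if_neg (fun h4 => by omega),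
            if_neg (fun h4 => by omega), if_pos ⟨h1, hV, h2', h3.ne'⟩]
          ring
  · rw [if_neg h1, if_neg (fun h4 => h1 h4.1), if_neg (fun h4 => h1 h4.1),
      if_neg (fun h4 => h1 h4.1)]
    ring

omit [Algebra (ZMod p) k] [Fact (Nat.Prime p)] [Fintype k] [Fintype U] [Fintype Λ] in
open Classical in
/-- the condition `ZoV` for fixed label functions -/
lemma zo_le (Lk : k → k → Prop) (E T : ℕ) (P b : Finset B) (q : B) (t s : k) (hbP : b ⊆ P)
    (hth : ∀ q' ∈ P, S.bl q' ≤ th E (S.bl q)) (c y : B → k) :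
    (if ZoV S V Lk T E b q t s c y then (1 : ℝ) else 0) ≤
      ind ((b.erase q).filter fun q' => S.spl q' ∧ ¬ V q' ∧ T ≤ S.bl q' ∧ S.bl q' < S.bl q) c *
        ind ((b.erase q).filter fun q' =>
          S.spl q' ∧ ¬ V q' ∧ T ≤ S.bl q' ∧ S.bl q' ≠ S.bl q) y +
      ∑ q₁ ∈ (b.erase q).filter fun q' => S.spl q' ∧ ¬ V q' ∧ T ≤ S.bl q' ∧ S.bl q' ≠ S.bl q,
        ind (((b.erase q).filter fun q' =>
          S.spl q' ∧ ¬ V q' ∧ T ≤ S.bl q' ∧ S.bl q' < S.bl q).erase q₁) c *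
        ind (((b.erase q).filter fun q' =>
          S.spl q' ∧ ¬ V q' ∧ T ≤ S.bl q' ∧ S.bl q' ≠ S.bl q).erase q₁) y := by
  set A := (b.erase q).filter fun q' => S.spl q' ∧ ¬ V q' ∧ T ≤ S.bl q' ∧ S.bl q' < S.bl q with hA
  set A' := (b.erase q).filter fun q' => S.spl q' ∧ ¬ V q' ∧ T ≤ S.bl q' ∧ S.bl q' ≠ S.bl q
    with hA'
  have h0 : 0 ≤ ∑ q₁ ∈ A', ind (A.erase q₁) c * ind (A'.erase q₁) y :=
    Finset.sum_nonneg fun q₁ _ => mul_nonneg (ind_nonneg _ _) (ind_nonneg _ _)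
  have h00 : 0 ≤ ind A c * ind A' y := mul_nonneg (ind_nonneg _ _) (ind_nonneg _ _)
  by_cases hz : ZoV S V Lk T E b q t s c y
  · rw [if_pos hz]
    by_cases hn : ∃ q₁ ∈ b, ¬ V q₁ ∧ q₁ ≠ q ∧ T ≤ S.bl q₁ ∧ Nz S E (S.bl q) c y q₁
    · obtain ⟨q₁, h1, hV1, h2, h3, h4⟩ := hn
      have hall : ∀ q' ∈ b, ¬ V q' → q' ≠ q → T ≤ S.bl q' → q' ≠ q₁ → ¬ Nz S E (S.bl q) c y q' :=
        fun q' h5 hV' h6 h7 h8 h9 => h8 (hz.one q' h5 q₁ h1 hV' hV1 h6 h2 h7 h3 h9 h4)
      have hm : q₁ ∈ A' := by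
        rw [hA', mem_filter, mem_erase]
        refine ⟨⟨h2, h1⟩, h4.1, hV1, h3, ?_⟩
        rcases h4.2 with h5 | h5
        · exact h5.1.ne
        · exact h5.1
      have hc : ind (A.erase q₁) c = 1 := by
        unfold ind
        rw [if_pos]
        intro q' hq'
        rw [mem_erase, hA, mem_filter, mem_erase] at hq'
        by_contra h5
        exact hall q' hq'.2.1.2 hq'.2.2.2.1 hq'.2.1.1 hq'.2.2.2.2.1 hq'.1
          ⟨hq'.2.2.1, Or.inl ⟨hq'.2.2.2.2.2, h5⟩⟩
      have hy : ind (A'.erase q₁) y = 1 := by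
        unfold ind
        rw [if_pos]
        intro q' hq'
        rw [mem_erase, hA', mem_filter, mem_erase] at hq'
        by_contra h5
        exact hall q' hq'.2.1.2 hq'.2.2.2.1 hq'.2.1.1 hq'.2.2.2.2.1 hq'.1
          ⟨hq'.2.2.1, Or.inr ⟨hq'.2.2.2.2.2, hth q' (hbP hq'.2.1.2), h5⟩⟩
      have h5 : ind (A.erase q₁) c * ind (A'.erase q₁) y ≤
          ∑ q₁ ∈ A', ind (A.erase q₁) c * ind (A'.erase q₁) y :=
        Finset.single_le_sum (f := fun q₁ => ind (A.erase q₁) c * ind (A'.erase q₁) y)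
          (fun q₁ _ => mul_nonneg (ind_nonneg _ _) (ind_nonneg _ _)) hm
      rw [hc, hy] at h5
      linarith
    · have hall : ∀ q' ∈ b, ¬ V q' → q' ≠ q → T ≤ S.bl q' → ¬ Nz S E (S.bl q) c y q' :=
        fun q' h5 hV' h6 h7 h8 => hn ⟨q', h5, hV', h6, h7, h8⟩
      have hc : ind A c = 1 := by
        unfold ind
        rw [if_pos]
        intro q' hq'
        rw [hA, mem_filter, mem_erase] at hq'
        by_contra h5
        exact hall q' hq'.1.2 hq'.2.2.1 hq'.1.1 hq'.2.2.2.1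
          ⟨hq'.2.1, Or.inl ⟨hq'.2.2.2.2, h5⟩⟩
      have hy : ind A' y = 1 := by
        unfold ind
        rw [if_pos]
        intro q' hq'
        rw [hA', mem_filter, mem_erase] at hq'
        by_contra h5
        exact hall q' hq'.1.2 hq'.2.2.1 hq'.1.1 hq'.2.2.2.1
          ⟨hq'.2.1, Or.inr ⟨hq'.2.2.2.2, hth q' (hbP hq'.1.2), h5⟩⟩
      rw [hc, hy]
      linarith
  · rw [if_neg hz]
    linarith

open Classical in
lemma ful_le (hlab : C_LAB) (ψ : AddChar k ℂ) (Lk : k → k → Prop) (E T : ℕ) (P b : Finset B)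
    (q : B) (t s : k) (hbP : b ⊆ P) (hT : T ≤ S.bl q)
    (hth : ∀ q' ∈ P, S.bl q' ≤ th E (S.bl q)) :
    ‖ful₃ S ψ E P b q t s (ZoV S V Lk T E b q t s)‖ ≤
      (2 * Fintype.card U * (Fintype.card k : ℝ) ^ 2) *
        ∏ q' ∈ b.erase q, fz S V T (S.bl q) q' := by
  set A := (b.erase q).filter fun q' => S.spl q' ∧ ¬ V q' ∧ T ≤ S.bl q' ∧ S.bl q' < S.bl q with hA
  set A' := (b.erase q).filter fun q' => S.spl q' ∧ ¬ V q' ∧ T ≤ S.bl q' ∧ S.bl q' ≠ S.bl q
    with hA'
  have hAP : A ⊆ P := ((filter_subset _ _).trans (erase_subset _ _)).trans hbP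
  have hA'P : A' ⊆ P := ((filter_subset _ _).trans (erase_subset _ _)).trans hbP
  have hQ := two_le_card (k := k)
  have hQ0 : (0 : ℝ) < Fintype.card k := by linarith
  set nA : ℝ := (lab k P).card * (1 / (Fintype.card k : ℝ)) ^ A.card with hnA
  set nA' : ℝ := (lab k P).card * (1 / (Fintype.card k : ℝ)) ^ A'.card with hnA'
  have hnA0 : 0 ≤ nA := by rw [hnA]; positivity
  have hnA'0 : 0 ≤ nA' := by rw [hnA']; positivity
  have hL : (0 : ℝ) < (lab k P).card := by
    rw [(hlab B k P).1]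
    have : 0 < Fintype.card k ^ P.card := pow_pos Fintype.card_pos _
    exact_mod_cast this
  have hΛ : (0 : ℝ) < Fintype.card Λ := by
    have : 0 < Fintype.card Λ := Fintype.card_pos
    exact_mod_cast this
  set W : ℝ := (nA * nA') * (1 + (A'.card : ℝ) * (Fintype.card k : ℝ) ^ 2) with hW
  -- the inner double sum
  have hin : ∀ (x : U) (χ : AddChar Λ ℂ),
      ‖∑ c ∈ lab k P, ∑ y ∈ lab k P with ZoV S V Lk T E b q t s c y,
        ph S ψ χ b x (cutc S (S.bl q) q t c) (cuty S E (S.bl q) q s y)‖ ≤ W := by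
    intro x χ
    have h1 : ∀ c ∈ lab k P, ‖∑ y ∈ lab k P with ZoV S V Lk T E b q t s c y,
        ph S ψ χ b x (cutc S (S.bl q) q t c) (cuty S E (S.bl q) q s y)‖ ≤
        ∑ y ∈ lab k P, (ind A c * ind A' y +
          ∑ q₁ ∈ A', ind (A.erase q₁) c * ind (A'.erase q₁) y) := by
      intro c _
      refine (norm_sum_le _ _).trans ?_
      rw [Finset.sum_congr rfl (fun y _ => norm_ph S ψ χ b x _ _), Finset.sum_filter]
      exact Finset.sum_le_sum fun y _ => zo_le S V Lk E T P b q t s hbP hth c y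
    refine (norm_sum_le _ _).trans ((Finset.sum_le_sum h1).trans ?_)
    have h2 : ∑ c ∈ lab k P, ∑ y ∈ lab k P, (ind A c * ind A' y +
          ∑ q₁ ∈ A', ind (A.erase q₁) c * ind (A'.erase q₁) y) =
        (∑ c ∈ lab k P, ind A c) * (∑ y ∈ lab k P, ind A' y) +
          ∑ q₁ ∈ A', (∑ c ∈ lab k P, ind (A.erase q₁) c) *
            (∑ y ∈ lab k P, ind (A'.erase q₁) y) := by
      simp_rw [Finset.sum_add_distrib]
      congr 1
      · rw [Finset.sum_mul_sum]
      · rw [Finset.sum_congr rfl (fun c _ => Finset.sum_comm)]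
        rw [Finset.sum_comm]
        refine Finset.sum_congr rfl fun q₁ _ => ?_
        rw [Finset.sum_mul_sum]
    rw [h2, sum_ind hlab P A hAP, sum_ind hlab P A' hA'P, ← hnA, ← hnA']
    have h3 : ∀ q₁ ∈ A', (∑ c ∈ lab k P, ind (A.erase q₁) c) *
            (∑ y ∈ lab k P, ind (A'.erase q₁) y) ≤
          (Fintype.card k * nA) * (Fintype.card k * nA') := fun q₁ _ =>
      mul_le_mul (sum_ind_erase hlab P A hAP q₁) (sum_ind_erase hlab P A' hA'P q₁)
        (Finset.sum_nonneg fun _ _ => ind_nonneg _ _) (by positivity)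
    have h4 := Finset.sum_le_sum h3
    rw [Finset.sum_const, nsmul_eq_mul] at h4
    rw [hW]
    linarith
  have hW0 : 0 ≤ W := by rw [hW]; positivity
  have hχ : ∀ (x : U),
      ‖∑ χ : AddChar Λ ℂ, ∑ c ∈ lab k P, ∑ y ∈ lab k P with ZoV S V Lk T E b q t s c y,
        ph S ψ χ b x (cutc S (S.bl q) q t c) (cuty S E (S.bl q) q s y)‖ ≤
        Fintype.card Λ * W := by
    intro x
    refine (norm_sum_le _ _).trans ((Finset.sum_le_sum fun χ _ => hin x χ).trans ?_)
    rw [Finset.sum_const, nsmul_eq_mul, Finset.card_univ, AddChar.card_eq]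
  have hx : ‖∑ x : U, ∑ χ : AddChar Λ ℂ, ∑ c ∈ lab k P,
        ∑ y ∈ lab k P with ZoV S V Lk T E b q t s c y,
        ph S ψ χ b x (cutc S (S.bl q) q t c) (cuty S E (S.bl q) q s y)‖ ≤
        Fintype.card U * (Fintype.card Λ * W) := by
    refine (norm_sum_le _ _).trans ((Finset.sum_le_sum fun x _ => hχ x).trans ?_)
    rw [Finset.sum_const, nsmul_eq_mul, Finset.card_univ]
  have hconst : ‖((Fintype.card k : ℂ) ^ (S.rs b q).card /
      (Fintype.card Λ * ((lab k P).card : ℂ) ^ 2))‖ =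
      (Fintype.card k : ℝ) ^ (S.rs b q).card / (Fintype.card Λ * ((lab k P).card : ℝ) ^ 2) := by
    rw [norm_div, norm_pow, norm_mul, norm_pow, Complex.norm_natCast, Complex.norm_natCast,
      Complex.norm_natCast]
  unfold ful₃
  rw [norm_mul, hconst, prod_fz S V T b q hT, ← hA, ← hA']
  refine (mul_le_mul_of_nonneg_left hx (by positivity)).trans ?_
  have h5 : (Fintype.card k : ℝ) ^ (S.rs b q).card /
      (Fintype.card Λ * ((lab k P).card : ℝ) ^ 2) * (Fintype.card U * (Fintype.card Λ * W)) =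
      (Fintype.card U * ((Fintype.card k : ℝ) ^ (S.rs b q).card *
        ((1 / (Fintype.card k : ℝ)) ^ A.card * (1 / (Fintype.card k : ℝ)) ^ A'.card))) *
        (1 + (A'.card : ℝ) * (Fintype.card k : ℝ) ^ 2) := by
    rw [hW, hnA, hnA']
    field_simp
  rw [h5]
  refine (mul_le_mul_of_nonneg_left (bern (k := k) A'.card) (by positivity)).trans (le_of_eq ?_)
  rw [mul_pow]
  ring

end count

section analysis

lemma M_ge (α : ℝ) (hα : 0 ≤ α) (n T : ℕ) (hT : 1 ≤ T) (hn : n ≤ T) :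
    1 ≤ (T : ℝ) ^ α * ((max 1 n : ℕ) : ℝ) ^ (-α) := by
  have h1 : (1 : ℝ) ≤ ((max 1 n : ℕ) : ℝ) := by exact_mod_cast le_max_left 1 n
  have h2 : ((max 1 n : ℕ) : ℝ) ≤ T := by exact_mod_cast max_le hT hn
  have h4 : ((max 1 n : ℕ) : ℝ) ^ α ≤ (T : ℝ) ^ α := Real.rpow_le_rpow (by linarith) h2 hα
  rw [Real.rpow_neg (by linarith), ← div_eq_mul_inv, le_div_iff₀ (by positivity), one_mul]
  exact h4

variable {p : ℕ} [Fact p.Prime] {B B₀ k U Λ C : Type} [Field k] [Fintype k] [Algebra (ZMod p) k]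
    [AddCommGroup U] [Module k U] [Fintype U] [AddCommGroup Λ] [Module k Λ] [Fintype Λ]
    [AddCommGroup C] {S : Sys p B B₀ k U Λ C} {ψ : AddChar k ℂ} {Lk : k → k → Prop}
    {Cs : k → AddSubgroup k} {M : ℕ} {κ : ℝ} {g : ℝ → ℝ} {K : ℕ} {V : B → Prop} {ρ K₂ : ℝ}

omit [Fact (Nat.Prime p)] [Algebra (ZMod p) k] [Fintype U] [Fintype Λ] in
open Classical in
lemma fz_pt (T j : ℕ) (q : B) :
    (fz S V T j q - 1) / S.N q ≤
      (Fintype.card k : ℝ) * (if S.bl q < T then (1 : ℝ) / S.N q else 0) +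
      ((Fintype.card k : ℝ) - 1) * (if V q ∧ T ≤ S.bl q then (1 : ℝ) / S.N q else 0) -
      (1 / 4) * (if S.spl q ∧ ¬ V q ∧ T ≤ S.bl q ∧ S.bl q ≠ j then (1 : ℝ) / S.N q else 0) := by
  have hQ := two_le_card (k := k)
  have hN : (0 : ℝ) < S.N q := by exact_mod_cast N_pos S q
  have hQ1 : 1 / (Fintype.card k : ℝ) ≤ 1 / 2 := one_div_le_one_div_of_le (by norm_num) hQ
  have hi : 0 < (1 : ℝ) / S.N q := by positivity
  obtain ⟨a, ha⟩ : ∃ a : ℝ, a = if S.bl q < T then (1 : ℝ) / S.N q else 0 := ⟨_, rfl⟩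
  obtain ⟨b, hb⟩ : ∃ b : ℝ, b = if V q ∧ T ≤ S.bl q then (1 : ℝ) / S.N q else 0 := ⟨_, rfl⟩
  obtain ⟨c, hc⟩ : ∃ c : ℝ, c = if S.spl q ∧ ¬ V q ∧ T ≤ S.bl q ∧ S.bl q ≠ j then
    (1 : ℝ) / S.N q else 0 := ⟨_, rfl⟩
  rw [← ha, ← hb, ← hc]
  have ha0 : 0 ≤ a := by rw [ha]; split_ifs <;> [exact hi.le; exact le_rfl]
  have hb0 : 0 ≤ b := by rw [hb]; split_ifs <;> [exact hi.le; exact le_rfl]
  have hma : 0 ≤ (Fintype.card k : ℝ) * a := mul_nonneg (by linarith) ha0
  have hmb : 0 ≤ ((Fintype.card k : ℝ) - 1) * b := mul_nonneg (by linarith) hb0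
  unfold fz
  by_cases h1 : S.spl q
  · by_cases h2 : S.bl q < T
    · rw [if_pos h2] at ha
      rw [if_neg (fun h4 => by omega)] at hc
      rw [if_pos h1, if_pos h2, hc, ha]
      have : ((Fintype.card k : ℝ) - 1) / S.N q ≤ (Fintype.card k : ℝ) * (1 / S.N q) := by
        rw [div_eq_mul_one_div]
        exact mul_le_mul_of_nonneg_right (by linarith) hi.le
      linarith
    · have h2' : T ≤ S.bl q := not_lt.1 h2
      by_cases h3 : S.bl q = j
      · rw [if_neg (fun h4 => h4.2.2.2 h3)] at hc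
        rw [if_pos h1, if_neg h2, if_pos h3, hc, sub_self, zero_div]
        linarith
      · by_cases hV : V q
        · rw [if_neg (fun h4 => h4.2.1 hV)] at hc
          rw [if_pos ⟨hV, h2'⟩] at hb
          rw [if_pos h1, if_neg h2, if_neg h3, if_pos hV, hc]
          by_cases h4 : S.bl q < j
          · rw [if_pos h4, hb, div_eq_mul_one_div]
            linarith
          · rw [if_neg h4, sub_self, zero_div]
            linarith
        · rw [if_pos ⟨h1, hV, h2', h3⟩] at hc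
          rw [if_pos h1, if_neg h2, if_neg h3, if_neg hV]
          have h5 : (3 / 2 * (1 / (Fintype.card k : ℝ)) - 1) / S.N q ≤
              -(1 / 4 * (1 / (S.N q : ℝ))) := by
            rw [div_eq_mul_one_div, ← neg_mul]
            exact mul_le_mul_of_nonneg_right (by linarith) hi.le
          rw [hc]
          linarith
  · rw [if_neg (fun h4 => h1 h4.1)] at hc
    rw [if_neg h1, hc, sub_self, zero_div]
    linarith

/-- the constant -/
noncomputable def cst (Q K κ ρ K₂ : ℝ) : ℝ :=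
  (Q - 1) * (ρ * Real.log 3 + K₂) + (2 * K + K₂) / 4 + 0 * κ

open Classical in
lemma exp_bd (H : HypG S ψ Lk Cs M κ g K) (HV : Spr S V ρ K₂)
    (hρ : 8 * ((Fintype.card k : ℝ) + 1) * ρ ≤ κ) {T j : ℕ} (hT : 1 ≤ T) (hTj : T ≤ j) {X : ℝ}
    (hX : 1 ≤ X) {q : B} (hq : S.bl q = j) :
    Real.exp (∑ q' ∈ S.upto (X / S.N q), (fz S V T j q' - 1) / S.N q') ≤
      Real.exp (Fintype.card k * K + cst (Fintype.card k) K κ ρ K₂) *
        ((T : ℝ) + 2) ^ (Fintype.card k * K + ⌈κ / 8⌉₊) *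
        ((max 1 (lg X - (j + 1)) : ℕ) : ℝ) ^ (-(κ / 8)) := by
  have hW : HypW S ψ g K := HypW.of_hyp₀ S H.toHyp₃.toHyp₀
  have hK1 : (1 : ℝ) ≤ K := by exact_mod_cast H.one_le
  have hX0 : 0 < X := by linarith
  have hN0 : ∀ q, (0 : ℝ) < S.N q := fun q => by exact_mod_cast N_pos S q
  have hY0 : 0 < X / S.N q := div_pos hX0 (hN0 q)
  have hQ := two_le_card (k := k)
  have hQ0 : (0 : ℝ) < Fintype.card k := by linarith
  have hT0 : (0 : ℝ) < (T : ℝ) + 2 := by positivity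
  have hTp : (0 : ℝ) < T := by exact_mod_cast hT
  have hκ0 : 0 < κ := H.κ_pos
  have hρ0 : 0 ≤ ρ := HV.nonneg
  have hK20 : 0 ≤ K₂ := by
    have h1 := HV.up 1 1 le_rfl le_rfl
    simp only [Nat.cast_one, div_one, Real.log_one, mul_zero, zero_add] at h1
    exact le_trans (Finset.sum_nonneg fun q' _ => by have := hN0 q'; positivity) h1
  have hl3 : 0 ≤ Real.log 3 := Real.log_nonneg (by norm_num)
  set Q : ℝ := (Fintype.card k : ℝ) with hQd
  set Y : ℝ := X / S.N q with hY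
  set n : ℕ := lg X - (j + 1) with hn
  set M' : ℝ := ((max 1 n : ℕ) : ℝ) ^ (-(κ / 8)) with hM
  set S2 : ℝ := ∑ q' ∈ S.upto Y with (S.spl q' ∧ ¬ V q' ∧ T ≤ S.bl q' ∧ S.bl q' ≠ j),
    (1 : ℝ) / S.N q' with hS2
  set SV : ℝ := ∑ q' ∈ S.upto Y with (V q' ∧ T ≤ S.bl q'), (1 : ℝ) / S.N q' with hSV
  have hS20 : 0 ≤ S2 := Finset.sum_nonneg fun q' _ => by
    have := hN0 q'
    positivity
  -- the exponent
  have h1 : ∑ q' ∈ S.upto Y, (fz S V T j q' - 1) / S.N q' ≤
      Q * ∑ q' ∈ S.below T, (1 : ℝ) / S.N q' + (Q - 1) * SV - (1 / 4) * S2 := by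
    refine (Finset.sum_le_sum fun q' _ => fz_pt (S := S) (V := V) T j q').trans ?_
    rw [Finset.sum_sub_distrib, Finset.sum_add_distrib, ← Finset.mul_sum, ← Finset.mul_sum,
      ← Finset.mul_sum, ← Finset.sum_filter, ← Finset.sum_filter, ← Finset.sum_filter, ← hS2,
      ← hSV]
    have h2 : ∑ q' ∈ S.upto Y with S.bl q' < T, (1 : ℝ) / S.N q' ≤
        ∑ q' ∈ S.below T, (1 : ℝ) / S.N q' := by
      refine Finset.sum_le_sum_of_subset_of_nonneg ?_ fun q' _ _ => ?_
      · intro q' hq'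
        rw [mem_below]
        exact (mem_filter.1 hq').2
      · have := hN0 q'
        positivity
    have h3 := mul_le_mul_of_nonneg_left h2 hQ0.le
    linarith
  have h2 : Q * ∑ q' ∈ S.below T, (1 : ℝ) / S.N q' ≤
      Q * K + Real.log ((T : ℝ) + 2) * ((Fintype.card k * K : ℕ) : ℝ) := by
    have h5 := mul_le_mul_of_nonneg_left (below_sum hW T) hQ0.le
    push_cast
    rw [← hQd]
    linarith
  -- the primes of `V`
  have hup : ∀ q' ∈ S.upto Y, S.bl q' < n + 2 := by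
    intro q' hq'
    rw [mem_upto S hY0.le, hY, le_div_iff₀ (hN0 q)] at hq'
    have h4 : 2 ^ (S.bl q' + j) ≤ S.N q' * S.N q := by
      rw [pow_add]
      refine Nat.mul_le_mul (le_N S q') ?_
      rw [← hq]; exact le_N S q
    have h5 : 2 ^ (S.bl q' + j) ≤ ⌊X⌋₊ := by
      apply Nat.le_floor
      have h6 : ((2 ^ (S.bl q' + j) : ℕ) : ℝ) ≤ ((S.N q' * S.N q : ℕ) : ℝ) := by exact_mod_cast h4
      push_cast at h6 ⊢
      linarith
    have h6 : S.bl q' + j ≤ lg X := by
      unfold lg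
      exact Nat.le_log_of_pow_le one_lt_two h5
    omega
  have hSV1 : SV ≤ ∑ q' ∈ S.below (n + 2) with (V q' ∧ T ≤ S.bl q'), (1 : ℝ) / S.N q' := by
    rw [hSV]
    refine Finset.sum_le_sum_of_subset_of_nonneg ?_ fun q' _ _ => ?_
    · intro q' hq'
      rw [mem_filter] at hq' ⊢
      exact ⟨(mem_below S).2 (hup q' hq'.1), hq'.2⟩
    · have := hN0 q'
      positivity
  have hSV2 : ∀ r : ℝ, 0 ≤ r → ((n : ℝ) + 2) / T ≤ 3 * Real.exp r →
      SV ≤ ρ * r + (ρ * Real.log 3 + K₂) := by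
    intro r hr hnr
    rcases Nat.lt_or_ge (n + 2) T with h3 | h3
    · have h4 : (S.below (n + 2)).filter (fun q' => V q' ∧ T ≤ S.bl q') = ∅ := by
        rw [Finset.filter_eq_empty_iff]
        intro q' hq' h5
        rw [mem_below] at hq'
        omega
      rw [h4, Finset.sum_empty] at hSV1
      have : 0 ≤ ρ * r := mul_nonneg hρ0 hr
      have : 0 ≤ ρ * Real.log 3 := mul_nonneg hρ0 hl3
      linarith
    · have h4 := HV.up T (n + 2) hT h3
      have h5 : Real.log (((n + 2 : ℕ) : ℝ) / T) ≤ r + Real.log 3 := by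
        have h6 : Real.log (3 * Real.exp r) = Real.log 3 + r := by
          rw [Real.log_mul (by norm_num) (Real.exp_pos r).ne', Real.log_exp]
        rw [add_comm r, ← h6]
        apply Real.log_le_log
        · have : (0 : ℝ) < ((n + 2 : ℕ) : ℝ) := by positivity
          positivity
        · push_cast; exact hnr
      have h6 := mul_le_mul_of_nonneg_left h5 hρ0
      linarith
  -- the second factor
  have h3 : Real.exp ((Q - 1) * SV - (1 / 4) * S2) ≤
      Real.exp (cst Q K κ ρ K₂) * ((T : ℝ) ^ (κ / 8) * M') := by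
    have hM0 : 0 ≤ M' := by rw [hM]; positivity
    have hQ1 : 0 ≤ Q - 1 := by linarith
    rcases le_or_gt n T with hnT | hnT
    · have h4 : 1 ≤ (T : ℝ) ^ (κ / 8) * M' := M_ge (κ / 8) (by linarith) n T hT hnT
      have h5 : SV ≤ ρ * 0 + (ρ * Real.log 3 + K₂) := by
        apply hSV2 0 le_rfl
        rw [Real.exp_zero, mul_one, div_le_iff₀ hTp]
        have h6 : (n : ℝ) ≤ T := by exact_mod_cast hnT
        have h7 : (1 : ℝ) ≤ T := by exact_mod_cast hT
        linarith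
      have h6 : (Q - 1) * SV - (1 / 4) * S2 ≤ cst Q K κ ρ K₂ := by
        unfold cst
        have h7 := mul_le_mul_of_nonneg_left h5 hQ1
        have h8 : 0 ≤ (2 * (K : ℝ) + K₂) / 4 := by positivity
        linarith
      calc Real.exp ((Q - 1) * SV - (1 / 4) * S2) ≤ Real.exp (cst Q K κ ρ K₂) :=
            Real.exp_le_exp.2 h6
        _ = Real.exp (cst Q K κ ρ K₂) * 1 := (mul_one _).symm
        _ ≤ _ := mul_le_mul_of_nonneg_left h4 (Real.exp_pos _).le
    · have hn1 : max 1 n = n := max_eq_right (by omega)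
      have hn0 : (0 : ℝ) < n := by
        have : 0 < n := by omega
        exact_mod_cast this
      have hn3 : n + (j + 1) ≤ lg X := by omega
      have hnT' : (1 : ℝ) ≤ (n : ℝ) / T := by
        rw [le_div_iff₀ hTp, one_mul]
        exact_mod_cast hnT.le
      have hlog0 : 0 ≤ Real.log (n / T) := Real.log_nonneg hnT'
      have hsub : ∀ q' ∈ S.below n, q' ∈ S.upto Y := by
        intro q' hq'
        rw [mem_below] at hq'
        rw [mem_upto S hY0.le, hY, le_div_iff₀ (hN0 q)]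
        have h4 : S.N q' * S.N q ≤ 2 ^ lg X := by
          calc S.N q' * S.N q ≤ 2 ^ n * 2 ^ (j + 1) := by
                refine Nat.mul_le_mul ?_ ?_
                · exact (N_lt S q').le.trans (Nat.pow_le_pow_right (by norm_num) hq')
                · rw [← hq]; exact (N_lt S q).le
            _ = 2 ^ (n + (j + 1)) := by ring
            _ ≤ 2 ^ lg X := Nat.pow_le_pow_right (by norm_num) hn3
        have h5 : ((S.N q' * S.N q : ℕ) : ℝ) ≤ ((2 ^ lg X : ℕ) : ℝ) := by exact_mod_cast h4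
        push_cast at h5
        exact h5.trans (pow_lg_le X hX)
      have hmers := H.merK T n hT hnT.le
      have hVn := HV.up T n hT hnT.le
      have hche := H.che j (by omega)
      have hKj : (K : ℝ) / j ≤ K := by
        have hj1 : (1 : ℝ) ≤ j := by exact_mod_cast (by omega : 1 ≤ j)
        exact div_le_self (by linarith) hj1
      have h4 : ∑ q' ∈ S.below n with S.spl q' ∧ T ≤ S.bl q', (1 : ℝ) / S.N q' ≤
          (S2 + ∑ q' ∈ S.below n with V q' ∧ T ≤ S.bl q', (1 : ℝ) / S.N q') +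
            ∑ q' ∈ S.blk j, (1 : ℝ) / S.N q' := by
        have h5 : (S.below n).filter (fun q' => S.spl q' ∧ T ≤ S.bl q') ⊆
            (((S.upto Y).filter (fun q' => S.spl q' ∧ ¬ V q' ∧ T ≤ S.bl q' ∧ S.bl q' ≠ j)) ∪
              ((S.below n).filter (fun q' => V q' ∧ T ≤ S.bl q'))) ∪ S.blk j := by
          intro q' hq'
          rw [mem_filter] at hq'
          rw [mem_union, mem_union, mem_filter, mem_filter, mem_blk]
          by_cases h6 : S.bl q' = j
          · exact Or.inr h6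
          · by_cases hV : V q'
            · exact Or.inl (Or.inr ⟨hq'.1, hV, hq'.2.2⟩)
            · exact Or.inl (Or.inl ⟨hsub q' hq'.1, hq'.2.1, hV, hq'.2.2, h6⟩)
        have hun : ∀ s₁ s₂ : Finset B, ∑ q' ∈ s₁ ∪ s₂, (1 : ℝ) / S.N q' ≤
            ∑ q' ∈ s₁, (1 : ℝ) / S.N q' + ∑ q' ∈ s₂, (1 : ℝ) / S.N q' := by
          intro s₁ s₂
          have h7 := Finset.sum_union_inter (f := fun q' => (1 : ℝ) / S.N q') (s₁ := s₁)
            (s₂ := s₂)
          have h8 : 0 ≤ ∑ q' ∈ s₁ ∩ s₂, (1 : ℝ) / S.N q' :=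
            Finset.sum_nonneg fun q' _ => by
              have := hN0 q'
              positivity
          linarith
        refine (Finset.sum_le_sum_of_subset_of_nonneg h5 fun q' _ _ => ?_).trans ?_
        · have := hN0 q'
          positivity
        · refine (hun _ _).trans (add_le_add_left (hun _ _) _ |> le_trans ?_)
          exact le_rfl
      have h9 : κ * Real.log (n / T) - 2 * K - (ρ * Real.log (n / T) + K₂) ≤ S2 := by linarith
      have h10 : SV ≤ ρ * Real.log (n / T) + (ρ * Real.log 3 + K₂) := by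
        apply hSV2 _ hlog0
        rw [Real.exp_log (by linarith)]
        have h11 : (1 : ℝ) ≤ n := by exact_mod_cast (by omega : 1 ≤ n)
        rw [div_le_iff₀ hTp]
        have h12 : 3 * ((n : ℝ) / T) * T = 3 * n := by field_simp
        rw [h12]
        linarith
      have h11 : (Q - 1) * SV - (1 / 4) * S2 ≤
          cst Q K κ ρ K₂ + -(κ / 8) * Real.log (n / T) := by
        have h12 := mul_le_mul_of_nonneg_left h10 hQ1
        have h13 : ((Q - 1) * ρ + ρ / 4 - κ / 4) * Real.log (n / T) ≤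
            -(κ / 8) * Real.log (n / T) := by
          apply mul_le_mul_of_nonneg_right _ hlog0
          nlinarith
        unfold cst
        nlinarith
      refine (Real.exp_le_exp.2 h11).trans ?_
      rw [Real.exp_add]
      refine mul_le_mul_of_nonneg_left (le_of_eq ?_) (Real.exp_pos _).le
      rw [hM, hn1, Real.rpow_def_of_pos hTp, Real.rpow_def_of_pos hn0, ← Real.exp_add]
      congr 1
      rw [Real.log_div hn0.ne' hTp.ne']
      ring
  have h3' : (T : ℝ) ^ (κ / 8) ≤ ((T : ℝ) + 2) ^ ⌈κ / 8⌉₊ := by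
    have e1 : (T : ℝ) ^ (κ / 8) ≤ ((T : ℝ) + 2) ^ (κ / 8) :=
      Real.rpow_le_rpow hTp.le (by linarith) (by linarith)
    have e2 : ((T : ℝ) + 2) ^ (κ / 8) ≤ ((T : ℝ) + 2) ^ ((⌈κ / 8⌉₊ : ℕ) : ℝ) :=
      Real.rpow_le_rpow_of_exponent_le (by linarith) (Nat.le_ceil _)
    rw [Real.rpow_natCast] at e2
    exact e1.trans e2
  -- assembly
  have h4 : Real.exp (∑ q' ∈ S.upto Y, (fz S V T j q' - 1) / S.N q') ≤
      (Real.exp (Q * K) * ((T : ℝ) + 2) ^ (Fintype.card k * K)) *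
        Real.exp ((Q - 1) * SV - (1 / 4) * S2) := by
    have h5 : (Real.exp (Q * K) * ((T : ℝ) + 2) ^ (Fintype.card k * K)) =
        Real.exp (Q * K + Real.log ((T : ℝ) + 2) *
          ((Fintype.card k * K : ℕ) : ℝ)) := by
      rw [Real.exp_add, ← Real.rpow_def_of_pos hT0, Real.rpow_natCast]
    rw [h5, ← Real.exp_add]
    exact Real.exp_le_exp.2 (by linarith)
  have hM0 : 0 ≤ M' := by rw [hM]; positivity
  have h6 : Real.exp (cst Q K κ ρ K₂) * ((T : ℝ) ^ (κ / 8) * M') ≤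
      Real.exp (cst Q K κ ρ K₂) * (((T : ℝ) + 2) ^ ⌈κ / 8⌉₊ * M') :=
    mul_le_mul_of_nonneg_left (mul_le_mul_of_nonneg_right h3' hM0) (Real.exp_pos _).le
  refine h4.trans ((mul_le_mul_of_nonneg_left (h3.trans h6) (by positivity)).trans (le_of_eq ?_))
  rw [Real.exp_add, pow_add]
  ring

open Classical in
lemma rsum (H : HypG S ψ Lk Cs M κ g K) (HV : Spr S V ρ K₂)
    (hρ : 8 * ((Fintype.card k : ℝ) + 1) * ρ ≤ κ) {T j : ℕ} (hT : 1 ≤ T) (hTj : T ≤ j) {X : ℝ}
    (hX : 1 ≤ X) {q : B} (hq : S.bl q = j) (P : Finset B) :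
    ∑ r ∈ P.powerset, (∏ q' ∈ r, fz S V T j q') * Real.exp (-(S.nm r / (X / S.N q))) ≤
      K * (X / S.N q * min 1 (X / 2 ^ j) * (K * g X)) *
        (Real.exp (Fintype.card k * K + cst (Fintype.card k) K κ ρ K₂) *
        ((T : ℝ) + 2) ^ (Fintype.card k * K + ⌈κ / 8⌉₊) *
        ((max 1 (lg X - (j + 1)) : ℕ) : ℝ) ^ (-(κ / 8))) := by
  have hNq : (1 : ℝ) ≤ S.N q := by exact_mod_cast N_pos S q
  have hNq0 : (0 : ℝ) < S.N q := by linarith
  have hYpos : 0 < X / S.N q := by positivity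
  have hht := H.ht (fun q' => fz S V T j q') (fun q' => ⟨fz_nonneg S V T j q', by
    have h1 := fz_le S V T j q'
    linarith⟩) (X / S.N q) hYpos P
  refine hht.trans ?_
  have hexp := exp_bd H HV hρ hT hTj hX hq
  have hg1 : 1 ≤ g (X / S.N q) := H.g_one _
  have hgX : 1 ≤ g X := H.g_one _
  have hYX : X / S.N q ≤ X := div_le_self (by linarith) hNq
  have hg2 : g (X / S.N q) ≤ K * g X := H.g_mono _ _ hYX
  have hN2 : (2 : ℝ) ^ j ≤ S.N q := by
    have h3 : 2 ^ j ≤ S.N q := by rw [← hq]; exact le_N S q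
    exact_mod_cast h3
  have hY2 : X / S.N q ≤ X / 2 ^ j := by
    gcongr
  have hmin : min 1 (X / S.N q) ≤ min 1 (X / 2 ^ j) := min_le_min le_rfl hY2
  have hmin0 : 0 ≤ min 1 (X / S.N q) := le_min zero_le_one hYpos.le
  have hK0 : (0 : ℝ) ≤ K := Nat.cast_nonneg _
  refine mul_le_mul ?_ hexp (Real.exp_nonneg _) ?_
  · refine mul_le_mul_of_nonneg_left ?_ hK0
    refine mul_le_mul ?_ hg2 (by linarith) ?_
    · exact mul_le_mul_of_nonneg_left hmin hYpos.le
    · exact mul_nonneg hYpos.le (hmin0.trans hmin)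
  · refine mul_nonneg hK0 (mul_nonneg (mul_nonneg hYpos.le (hmin0.trans hmin)) ?_)
    exact mul_nonneg hK0 (by linarith)

end analysis

open Classical in
theorem t_oszg' (hlab : Pool.Agent.Helper17.PP.C_LAB) (hdec : Pool.Agent.Helper17.PP.C_DEC) :
    Pool.Agent.Helper38.TH.T_OSZG := by
  intro p _ B B₀ k U Λ C _ _ _ _ _ _ _ _ _ _ _ S ψ Lk Cs Mc κ g K H V ρ K₂ HV hρ
  have hQ := two_le_card (k := k)
  have hQ0 : (0 : ℝ) < Fintype.card k := by linarith
  have hK1 : (1 : ℝ) ≤ K := by exact_mod_cast H.one_le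
  have hK0 : (0 : ℝ) < K := by linarith
  set c0 : ℝ := (2 * Fintype.card U * (Fintype.card k : ℝ) ^ 2) * K ^ 3 *
    Real.exp (Fintype.card k * K + cst (Fintype.card k) K κ ρ K₂) with hc0
  have hc00 : 0 ≤ c0 := by rw [hc0]; positivity
  refine ⟨max ⌈c0⌉₊ (Fintype.card k * K + ⌈κ / 8⌉₊), ?_⟩
  intro E T j t s X P hT hTj hP hX
  set K' := max ⌈c0⌉₊ (Fintype.card k * K + ⌈κ / 8⌉₊) with hK'
  set m : ℝ := min 1 (X / 2 ^ j) with hm
  set M : ℝ := ((max 1 (lg X - (j + 1)) : ℕ) : ℝ) ^ (-(κ / 8)) with hM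
  have hgX : 1 ≤ g X := H.g_one _
  have hX0 : 0 < X := by linarith
  have hm0 : 0 ≤ m := le_min zero_le_one (by positivity)
  have hM0 : 0 ≤ M := by rw [hM]; positivity
  have hj1 : 1 ≤ j := hT.trans hTj
  have hj0 : (0 : ℝ) < j := by exact_mod_cast hj1
  have hT0 : (0 : ℝ) ≤ T := Nat.cast_nonneg _
  have hN0 : ∀ q, (0 : ℝ) < S.N q := fun q => by exact_mod_cast N_pos S q
  set u : ℝ := 2 * Fintype.card U * (Fintype.card k : ℝ) ^ 2 with hu
  have hu0 : 0 ≤ u := by rw [hu]; positivity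
  obtain ⟨F, hF⟩ : ∃ F : B → Finset B → ℝ, F = fun q r => if S.bl q = j then
    u * ((∏ q' ∈ r, fz S V T j q') * Real.exp (-(S.nm r / (X / S.N q)))) else 0 := ⟨_, rfl⟩
  have hprod0 : ∀ r : Finset B, 0 ≤ ∏ q' ∈ r, fz S V T j q' := fun r =>
    Finset.prod_nonneg fun q _ => fz_nonneg S V T j q
  have hF0 : ∀ q r, 0 ≤ F q r := by
    intro q r
    rw [hF]
    dsimp only
    split_ifs
    · exact mul_nonneg hu0 (mul_nonneg (hprod0 r) (Real.exp_pos _).le)
    · exact le_refl _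
  -- step 1
  have h1 : ∑ b ∈ P.powerset, ∑ q ∈ b with (S.Wt E b q ∧ S.bl q = j),
        ‖ful₃ S ψ E P b q t s (ZoV S V Lk T E b q t s)‖ * Real.exp (-(S.nm b / X)) ≤
      ∑ b ∈ P.powerset, ∑ q ∈ b, F q (b.erase q) := by
    refine Finset.sum_le_sum fun b hb => ?_
    refine filter_le _ _ _ _ (fun q hq hWt => ?_) (fun q _ => hF0 _ _)
    rw [hF]
    dsimp only
    rw [if_pos hWt.2]
    have h2 := ful_le S V hlab ψ Lk E T P b q t s (mem_powerset.1 hb) (by rw [hWt.2]; exact hTj)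
      (fun q' hq' => by rw [hWt.2]; exact hP q' hq')
    rw [hWt.2, ← hu] at h2
    have h3 : (S.nm b : ℝ) / X = (S.nm (b.erase q) : ℝ) / (X / S.N q) := by
      rw [nm_erase S b q hq]
      have := (hN0 q).ne'
      push_cast
      field_simp
    rw [h3, ← mul_assoc]
    exact mul_le_mul_of_nonneg_right h2 (Real.exp_pos _).le
  refine h1.trans ?_
  rw [(hdec B P).1 ℝ F]
  -- step 2
  have h2 : ∑ r ∈ P.powerset, ∑ q ∈ P \ r, F q r ≤
      ∑ r ∈ P.powerset, ∑ q ∈ S.blk j, u * ((∏ q' ∈ r, fz S V T j q') *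
        Real.exp (-(S.nm r / (X / S.N q)))) := by
    refine Finset.sum_le_sum fun r _ => ?_
    have h3 : ∑ q ∈ P \ r, F q r = ∑ q ∈ (P \ r).filter (fun q => S.bl q = j),
        u * ((∏ q' ∈ r, fz S V T j q') * Real.exp (-(S.nm r / (X / S.N q)))) := by
      rw [Finset.sum_filter, hF]
    rw [h3]
    refine Finset.sum_le_sum_of_subset_of_nonneg ?_ fun q _ _ =>
      mul_nonneg hu0 (mul_nonneg (hprod0 r) (Real.exp_pos _).le)
    intro q hq
    rw [mem_blk]
    exact (Finset.mem_filter.1 hq).2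
  refine h2.trans ?_
  rw [Finset.sum_comm]
  -- step 3
  set W : ℝ := Real.exp (Fintype.card k * K + cst (Fintype.card k) K κ ρ K₂) *
    ((T : ℝ) + 2) ^ (Fintype.card k * K + ⌈κ / 8⌉₊) * M with hW
  have hW0 : 0 ≤ W := by rw [hW]; positivity
  have h3 : ∀ q ∈ S.blk j, ∑ r ∈ P.powerset, u * ((∏ q' ∈ r, fz S V T j q') *
      Real.exp (-(S.nm r / (X / S.N q)))) ≤ u * (K ^ 2 * (X * g X) * m * W) * (1 / S.N q) := by
    intro q hq
    rw [mem_blk] at hq
    rw [← Finset.mul_sum]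
    refine (mul_le_mul_of_nonneg_left (rsum H HV hρ hT hTj hX hq P) hu0).trans (le_of_eq ?_)
    rw [← hM, ← hW, ← hm]
    have := (hN0 q).ne'
    field_simp
  refine (Finset.sum_le_sum h3).trans ?_
  rw [← Finset.mul_sum]
  have hche := H.che j hj1
  have hpos : 0 ≤ u * (K ^ 2 * (X * g X) * m * W) := by
    have : 0 ≤ g X := by linarith
    positivity
  refine (mul_le_mul_of_nonneg_left hche hpos).trans ?_
  have hc0K : c0 ≤ K' := by
    refine (Nat.le_ceil c0).trans ?_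
    rw [hK']
    exact_mod_cast le_max_left _ _
  have hpow : ((T : ℝ) + 2) ^ (Fintype.card k * K + ⌈κ / 8⌉₊) ≤ ((T : ℝ) + 2) ^ K' :=
    pow_le_pow_right₀ (by linarith) (le_max_right _ _)
  have hgX0 : 0 ≤ g X := by linarith
  calc u * (K ^ 2 * (X * g X) * m * W) * (K / j)
      = (c0 * ((T : ℝ) + 2) ^ (Fintype.card k * K + ⌈κ / 8⌉₊)) *
          (1 / j * m * M * (X * g X)) := by
        rw [hW, hc0, hu]; ring
    _ ≤ (K' * ((T : ℝ) + 2) ^ K') * (1 / j * m * M * (X * g X)) := by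
        refine mul_le_mul_of_nonneg_right ?_ (by positivity)
        exact mul_le_mul hc0K hpow (by positivity) (Nat.cast_nonneg _)
    _ = _ := by ring

/-- The packet. -/
theorem t_oszg : Pool.Agent.Helper38.TH.T_OSZG :=
  t_oszg' Pool.Agent.Helper83.PP.c_lab Pool.Agent.Helper22.PP.c_dec

end Pool.Agent.Helper87.TH
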