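import Pool.Agent.Helper42.TH.Goals1

/-!
# Project TH (MP_fc6b1e_nt), packet CLB: from the labels to the classes

Adapted from `Pool/Agent/Helper87/PW/WMOMV.lean` and `Pool/Agent/Helper42/WY/WMOMG.lean`.
-/

set_option autoImplicit false

namespace Pool.Agent.Helper87.TH

open NumberField Polynomial Module IsDedekindDomain TensorProduct
open Pool.Agent.Helper51.RP Pool.Agent.Helper42.RD Pool.Agent.Helper42.PP Pool.Agent.Helper42.PP1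
open Pool.Agent.Helper51.SigLeo Pool.Agent.Helper11.LE Pool.Agent.Helper11.PP
open Pool.Agent.Helper17.PP (Sys)
open Pool.Agent.Helper42.PB
open Pool.Agent.Helper42.PW
open Pool.Agent.Helper42.TH
open Pool.Agent.Helper86.ND (sub_fin sub_card)
open Pool.Agent.Helper79.PP (clp_eq clp_one clp_mul clp_pow clp_eq_one nice_val)
open Pool.Agent.Helper15.PP (gZ mem_gZ)
open Pool.Agent.Helper87.PW (up_mono)

/-- A filtered sum over a finset of a subtype. -/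
lemma sub_sum {α : Type} (P Q : α → Prop) [DecidablePred P] (Q' : {a // P a} → Prop)
    [DecidablePred Q'] [DecidablePred fun a => P a ∧ Q a] (h : ∀ b, Q' b ↔ Q b.1)
    (s : Finset α) (f : α → ℝ) :
    ∑ b ∈ s.subtype P with Q' b, f b.1 = ∑ b ∈ s with (P b ∧ Q b), f b := by
  classical
  rw [Finset.sum_filter, Finset.sum_filter]
  have h1 : ∑ b ∈ s.subtype P, (if Q' b then f b.1 else 0) =
      ∑ b ∈ s.subtype P, (fun a => if Q a then f a else 0) b.1 := by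
    refine Finset.sum_congr rfl fun b _ => ?_
    by_cases hb : Q' b
    · rw [if_pos hb]; exact (if_pos ((h b).1 hb)).symm
    · rw [if_neg hb]; exact (if_neg fun hc => hb ((h b).2 hc)).symm
  have h2 := Finset.sum_subtype_eq_sum_filter (s := s) (fun a => if Q a then f a else 0) (p := P)
  rw [h1]
  refine h2.trans ?_
  rw [Finset.sum_filter]
  refine Finset.sum_congr rfl fun b _ => ?_
  by_cases hP : P b <;> by_cases hQ : Q b <;> simp [hP, hQ]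

open Classical in
/-- The inner statement of `CLA`. -/
def CLA0 (C C' : ℝ) : Prop :=
  ∀ (𝒯 : Type) [Fintype 𝒯] [Nonempty 𝒯] (β : 𝒯 → Type) (n : ∀ τ, β τ → ℕ)
    (bad : ∀ τ, Set (β τ)) (exb : ∀ τ, ℝ → Set (β τ)) (F : 𝒯 → ℕ) (g : ℝ → ℝ)
    (K c X₁ θ C₁ δ : ℝ), (∀ τ, 1 ≤ F τ) → 0 < c → 0 ≤ θ → 0 ≤ C₁ → 0 ≤ δ → Slow g K →
    (∀ τ, ∀ X : ℝ, 0 < X → {b : β τ | (n τ b : ℝ) ≤ X}.Finite ∧
      ({b : β τ | (n τ b : ℝ) ≤ X}.ncard : ℝ) ≤ K * (X * g X)) →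
    (∀ τ, ∀ X : ℝ, 0 < X → X₁ ≤ X → c * (X * g X) ≤ {b : β τ | (n τ b : ℝ) ≤ X}.ncard) →
    (∀ ε : ℝ, 0 < ε → ∃ X₀ : ℝ, ∀ τ, ∀ X : ℝ, X₀ ≤ X → ∃ G : Finset (β τ),
      (∀ b, (n τ b : ℝ) ≤ X → b ∈ G) ∧
      ∑ b ∈ G with b ∈ bad τ, Real.exp (-(n τ b / X)) ≤
        θ * ∑ b ∈ G, Real.exp (-(n τ b / X)) +
        C₁ * ∑ b ∈ G with b ∈ exb τ X, Real.exp (-(n τ b / X)) + ε * (X * g X)) →
  ∀ (ι : Type) (f : ι → ℕ) (Bd Ex : Set ι) (Φ : ι → Σ τ, β τ), Function.Injective Φ →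
    (Set.range Φ)ᶜ.Finite → (∀ i, f i = F (Φ i).1 * n (Φ i).1 (Φ i).2) →
    (∀ i ∈ Bd, (Φ i).2 ∈ bad (Φ i).1) →
    (∃ X₀ : ℝ, ∀ X : ℝ, X₀ ≤ X → ∀ i, (Φ i).2 ∈ exb (Φ i).1 X →
      √X ≤ n (Φ i).1 (Φ i).2 → (n (Φ i).1 (Φ i).2 : ℝ) ≤ X ^ 2 → i ∈ Ex) →
    (∃ X₀ : ℝ, 0 < X₀ ∧ ∀ X : ℝ, X₀ ≤ X →
      ({i | (f i : ℝ) ≤ 2 * X}.ncard : ℝ) ≤ C * {i | (f i : ℝ) ≤ X}.ncard) →
    (∀ᶠ X : ℝ in Filter.atTop,
      ({i | i ∈ Ex ∧ (f i : ℝ) ≤ X}.ncard : ℝ) ≤ δ * {i | (f i : ℝ) ≤ X}.ncard) →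
  ∀ η : ℝ, 0 < η → ∀ᶠ X : ℝ in Filter.atTop,
    ({i | i ∈ Bd ∧ (f i : ℝ) ≤ X}.ncard : ℝ) ≤
      (C' * (θ + C₁ * δ) + η) * {i | (f i : ℝ) ≤ X}.ncard

section core

variable {p : ℕ} [Fact p.Prime] {K M K₁ M₁ : Type} [Field K] [NumberField K] [Field M]
    [NumberField M] [Field K₁] [NumberField K₁] [Field M₁] [NumberField M₁] [Algebra K M]
    [Algebra K K₁] [Algebra K M₁] [Algebra M M₁] [Algebra K₁ M₁] {ε : K₁} {δ : M ≃ₐ[K] M}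
    {P : (ZMod p)[X]} (B : Base p K M K₁ M₁ ε δ P)

/-- The norm of a finite set of labelled primes. -/
noncomputable def nB (b : Finset B.LP) : ℕ := ∏ q ∈ b, Ideal.absNorm q.1.1.asIdeal

open Classical in
/-- The set theoretic part. -/
theorem coreE {C C' : ℝ} (hABS : CLA0 C C') (S₀ : Finset (HeightOneSpectrum (𝓞 K)))
    (hS₀ : S₀ ⊆ B.S)
    (A : Set (ClP p K₁)) (hA : LocA p K ε S₀ A) (f : ClP p K₁ → ℕ) (F₀ : Finset K₁ˣ)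
    (hne : Nonempty F₀) (hF₀ : ∀ c ∈ F₀, OmType p K ε (c : K₁) ∧ clp p c ∈ A)
    (huq : ∀ a : K₁ˣ, OmType p K ε (a : K₁) → clp p a ∈ A →
      ∃! c, c ∈ F₀ ∧ LocS p (up K₁ B.S) (a / c))
    (Fam : F₀ → Finset B.LP → Prop) (bad : ∀ τ : F₀, Set {b : Finset B.LP // Fam τ b})
    (exb : ∀ τ : F₀, ℝ → Set {b : Finset B.LP // Fam τ b})
    (hfam : ∀ (τ : F₀) (a : K₁ˣ), OmType p K ε (a : K₁) → LocS p (up K₁ B.S) (a / τ) →
      Fam τ (B.lab a))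
    (hex : ∀ (τ : F₀) (b : Finset B.LP), Fam τ b → ∃ a : K₁ˣ, OmType p K ε (a : K₁) ∧
      LocS p (up K₁ B.S) (a / τ) ∧ B.lab a = b)
    (huni : ∀ (τ : F₀) (a a' : K₁ˣ), OmType p K ε (a : K₁) → OmType p K ε (a' : K₁) →
      LocS p (up K₁ B.S) (a / τ) → LocS p (up K₁ B.S) (a' / τ) → B.lab a = B.lab a' →
      Pw p (a / a'))
    (Bd Ex : Set (ClP p K₁))
    (hbad : ∀ (τ : F₀) (a : K₁ˣ) (h : Fam τ (B.lab a)), clp p a ∈ Bd → OmType p K ε (a : K₁) →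
      LocS p (up K₁ B.S) (a / τ) → ⟨B.lab a, h⟩ ∈ bad τ)
    (hexb : ∃ X₀ : ℝ, ∀ X : ℝ, X₀ ≤ X → ∀ (τ : F₀) (a : K₁ˣ) (h : Fam τ (B.lab a)),
      OmType p K ε (a : K₁) → LocS p (up K₁ B.S) (a / τ) → ⟨B.lab a, h⟩ ∈ exb τ X →
      √X ≤ nB B (B.lab a) → (nB B (B.lab a) : ℝ) ≤ X ^ 2 → clp p a ∈ Ex)
    (FT : F₀ → ℕ) (hFT : ∀ τ, 1 ≤ FT τ)
    (hwt : ∀ (τ : F₀) (a : K₁ˣ), OmType p K ε (a : K₁) → LocS p (up K₁ B.S) (a / τ) →
      f (clp p a) = FT τ * nB B (B.lab a))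
    (g : ℝ → ℝ) (Kc c X₁ θ C₁ δ' : ℝ) (hc : 0 < c) (hθ : 0 ≤ θ) (hC₁ : 0 ≤ C₁) (hδ' : 0 ≤ δ')
    (hg : Slow g Kc)
    (ha1 : ∀ τ : F₀, ∀ X : ℝ, 0 < X →
      {b : {b : Finset B.LP // Fam τ b} | (nB B b.1 : ℝ) ≤ X}.Finite ∧
      ({b : {b : Finset B.LP // Fam τ b} | (nB B b.1 : ℝ) ≤ X}.ncard : ℝ) ≤ Kc * (X * g X))
    (ha2 : ∀ τ : F₀, ∀ X : ℝ, 0 < X → X₁ ≤ X → c * (X * g X) ≤
      ({b : {b : Finset B.LP // Fam τ b} | (nB B b.1 : ℝ) ≤ X}.ncard : ℝ))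
    (ha3 : ∀ η : ℝ, 0 < η → ∃ X₀ : ℝ, ∀ τ : F₀, ∀ X : ℝ, X₀ ≤ X →
      ∃ G : Finset {b : Finset B.LP // Fam τ b}, (∀ b, (nB B b.1 : ℝ) ≤ X → b ∈ G) ∧
      ∑ b ∈ G with b ∈ bad τ, Real.exp (-(nB B b.1 / X)) ≤
        θ * ∑ b ∈ G, Real.exp (-(nB B b.1 / X)) +
        C₁ * ∑ b ∈ G with b ∈ exb τ X, Real.exp (-(nB B b.1 / X)) + η * (X * g X))
    (hdb : ∃ X₀ : ℝ, 0 < X₀ ∧ ∀ X : ℝ, X₀ ≤ X →
      cV f (BSet p K ε ∩ A) (2 * X) ≤ C * cV f (BSet p K ε ∩ A) X)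
    (hEx : ∀ᶠ X : ℝ in Filter.atTop,
      cV f (BSet p K ε ∩ A ∩ Ex) X ≤ δ' * cV f (BSet p K ε ∩ A) X) :
    ∀ η : ℝ, 0 < η → ∀ᶠ X : ℝ in Filter.atTop,
      cV f (BSet p K ε ∩ A ∩ Bd) X ≤ (C' * (θ + C₁ * δ') + η) * cV f (BSet p K ε ∩ A) X := by
  have hp : p.Prime := Fact.out
  -- the local conditions
  have hnice : ∀ a b : K₁ˣ, OmType p K ε (a : K₁) → OmType p K ε (b : K₁) → clp p b ∈ A →
      LocS p (up K₁ B.S) (a / b) → clp p a ∈ A := by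
    intro a b ha hb hbA hab
    refine hA b a hb ha (locS_mono (up_mono hS₀) ?_) hbA
    have h1 := (gZ p _).inv_mem (mem_gZ.2 hab)
    rw [inv_div] at h1
    exact mem_gZ.1 h1
  -- representatives
  have hrep : ∀ c : (BSet p K ε ∩ A : Set (ClP p K₁)), ∃ a : K₁ˣ, clp p a = c.1 ∧
      OmType p K ε (a : K₁) := fun c => c.2.1.2
  choose ra hra1 hra2 using hrep
  have hra3 : ∀ c, clp p (ra c) ∈ A := by
    intro c
    rw [hra1]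
    exact c.2.2
  have hτ : ∀ c : (BSet p K ε ∩ A : Set (ClP p K₁)), ∃ τ : F₀,
      LocS p (up K₁ B.S) (ra c / τ) := by
    intro c
    obtain ⟨τ, ⟨h1, h2⟩, -⟩ := huq (ra c) (hra2 c) (hra3 c)
    exact ⟨⟨τ, h1⟩, h2⟩
  choose rt hrt using hτ
  have huq' : ∀ (a : K₁ˣ) (τ τ' : F₀), OmType p K ε (a : K₁) → clp p a ∈ A →
      LocS p (up K₁ B.S) (a / τ) → LocS p (up K₁ B.S) (a / τ') → τ = τ' := by
    intro a τ τ' h1 h2 h3 h4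
    obtain ⟨σ, -, h5⟩ := huq a h1 h2
    exact Subtype.ext ((h5 _ ⟨τ.2, h3⟩).trans (h5 _ ⟨τ'.2, h4⟩).symm)
  let β : F₀ → Type := fun τ => {b : Finset B.LP // Fam τ b}
  let n : ∀ τ, β τ → ℕ := fun τ b => nB B b.1
  let Φ : (BSet p K ε ∩ A : Set (ClP p K₁)) → Σ τ, β τ := fun c =>
    ⟨rt c, ⟨B.lab (ra c), hfam (rt c) (ra c) (hra2 c) (hrt c)⟩⟩
  have hom1 : OmType p K ε ((1 : K₁ˣ) : K₁) := by
    obtain ⟨τ⟩ := hne
    exact om_one ⟨((τ : K₁ˣ) : K₁), (τ : K₁ˣ).ne_zero, (hF₀ τ τ.2).1⟩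
  have hΦ : Function.Injective Φ := by
    intro c c' h
    have h1 : rt c = rt c' := congrArg (fun x : Σ τ, β τ => x.1) h
    have h2 : B.lab (ra c) = B.lab (ra c') := congrArg (fun x : Σ τ, β τ => x.2.1) h
    have h3 := huni (rt c) (ra c) (ra c') (hra2 c) (hra2 c') (hrt c) (by rw [h1]; exact hrt c') h2
    apply Subtype.ext
    rw [← hra1 c, ← hra1 c']
    obtain ⟨y, hy⟩ := h3
    rw [eq_comm, clp_eq]
    exact ⟨y, by rw [← hy, mul_div_cancel]⟩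
  have hexc : ∀ x ∈ (Set.range Φ)ᶜ, LocS p (up K₁ B.S) (1 / (x.1 : K₁ˣ)) ∧
      x.2.1 = B.lab 1 ∧ clp p (1 : K₁ˣ) ∈ A := by
    rintro ⟨τ, ⟨b, hb⟩⟩ hx
    obtain ⟨a, ha1, ha2, ha3⟩ := hex τ b hb
    have ha4 : clp p a ∈ A := hnice a τ ha1 (hF₀ τ τ.2).1 (hF₀ τ τ.2).2 ha2
    have haP : Pw p a := by
      by_contra haP
      have hc : clp p a ∈ BSet p K ε ∩ A := ⟨⟨by rwa [Ne, clp_eq_one], a, rfl, ha1⟩, ha4⟩
      apply hx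
      refine ⟨⟨clp p a, hc⟩, ?_⟩
      set c : (BSet p K ε ∩ A : Set (ClP p K₁)) := ⟨clp p a, hc⟩ with hcdef
      obtain ⟨y, hy⟩ := clp_eq.1 (hra1 c).symm
      have h1 : LocS p (up K₁ B.S) (ra c / τ) := by
        have h2 := (gZ p _).mul_mem (mem_gZ.2 ha2)
          (mem_gZ.2 (locS_pow (p := p) (Z := up K₁ B.S) y))
        have h3 : ra c / (τ : K₁ˣ) = a / τ * y ^ p := by
          rw [hy, mul_div_right_comm]
        rw [h3]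
        exact mem_gZ.1 h2
      have h2 : rt c = τ := huq' (ra c) _ _ (hra2 c) (hra3 c) (hrt c) h1
      have h3 : B.lab (ra c) = b := by rw [hy, lab_mul_pow, ha3]
      subst h2
      subst h3
      rfl
    obtain ⟨y, hy⟩ := haP
    have h1 : B.lab a = B.lab 1 := by rw [hy, ← lab_mul_pow B 1 y, one_mul]
    have h2 : LocS p (up K₁ B.S) (1 / (τ : K₁ˣ)) := by
      have h3 := (gZ p _).mul_mem (mem_gZ.2 ha2)
        ((gZ p _).inv_mem (mem_gZ.2 (locS_pow (p := p) (Z := up K₁ B.S) y)))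
      have h4 : a / (τ : K₁ˣ) * (y ^ p)⁻¹ = 1 / τ := by
        rw [hy, div_eq_mul_inv, one_div, mul_right_comm, mul_inv_cancel, one_mul]
      rw [h4] at h3
      exact mem_gZ.1 h3
    refine ⟨h2, ?_, ?_⟩
    · show b = B.lab 1
      rw [← ha3, h1]
    · have h5 : clp p (1 : K₁ˣ) = clp p a := by
        rw [clp_eq]
        exact ⟨y, by rw [hy, one_mul]⟩
      rw [h5]
      exact ha4
  have hrange : (Set.range Φ)ᶜ.Finite := by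
    refine Set.Subsingleton.finite ?_
    rintro ⟨τ, ⟨b, hb⟩⟩ hx ⟨τ', ⟨b', hb'⟩⟩ hx'
    obtain ⟨h1, h2, h3⟩ := hexc _ hx
    obtain ⟨h1', h2', -⟩ := hexc _ hx'
    have h4 : τ = τ' := huq' 1 _ _ hom1 h3 h1 h1'
    have h5 : b = b' := h2.trans h2'.symm
    subst h4
    subst h5
    rfl
  have hcond : ∀ c : (BSet p K ε ∩ A : Set (ClP p K₁)),
      f c.1 = FT (Φ c).1 * n (Φ c).1 (Φ c).2 := by
    intro c
    have h := hwt (rt c) (ra c) (hra2 c) (hrt c)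
    rw [hra1 c] at h
    exact h
  have hbd : ∀ c ∈ {c : (BSet p K ε ∩ A : Set (ClP p K₁)) | c.1 ∈ Bd},
      (Φ c).2 ∈ bad (Φ c).1 := by
    intro c hcB
    exact hbad (rt c) (ra c) _ (by rw [hra1 c]; exact hcB) (hra2 c) (hrt c)
  have hexb' : ∃ X₀ : ℝ, ∀ X : ℝ, X₀ ≤ X → ∀ c : (BSet p K ε ∩ A : Set (ClP p K₁)),
      (Φ c).2 ∈ exb (Φ c).1 X → √X ≤ n (Φ c).1 (Φ c).2 → (n (Φ c).1 (Φ c).2 : ℝ) ≤ X ^ 2 →
      c ∈ {c : (BSet p K ε ∩ A : Set (ClP p K₁)) | c.1 ∈ Ex} := by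
    obtain ⟨X₀, h⟩ := hexb
    refine ⟨X₀, fun X hX c h1 h2 h3 => ?_⟩
    have h4 := h X hX (rt c) (ra c) _ (hra2 c) (hrt c) h1 h2 h3
    rw [hra1 c] at h4
    exact h4
  have hset : ∀ X : ℝ, {c | c ∈ BSet p K ε ∩ A ∧ (f c : ℝ) ≤ X} =
      Subtype.val '' {c : (BSet p K ε ∩ A : Set (ClP p K₁)) | (f c.1 : ℝ) ≤ X} := by
    intro X
    ext c
    constructor
    · rintro ⟨h1, h2⟩
      exact ⟨⟨c, h1⟩, h2, rfl⟩
    · rintro ⟨c, h1, rfl⟩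
      exact ⟨c.2, h1⟩
  have hset2 : ∀ (Z : Set (ClP p K₁)) (X : ℝ), {c | c ∈ BSet p K ε ∩ A ∩ Z ∧ (f c : ℝ) ≤ X} =
      Subtype.val '' {c : (BSet p K ε ∩ A : Set (ClP p K₁)) |
        c ∈ {c : (BSet p K ε ∩ A : Set (ClP p K₁)) | c.1 ∈ Z} ∧ (f c.1 : ℝ) ≤ X} := by
    intro Z X
    ext c
    constructor
    · rintro ⟨⟨h1, h3⟩, h2⟩
      exact ⟨⟨c, h1⟩, ⟨h3, h2⟩, rfl⟩
    · rintro ⟨c, ⟨h1, h2⟩, rfl⟩
      exact ⟨⟨c.2, h1⟩, h2⟩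
  have hcV : ∀ X : ℝ, (cV f (BSet p K ε ∩ A) X : ℝ) =
      ({c : (BSet p K ε ∩ A : Set (ClP p K₁)) | (f c.1 : ℝ) ≤ X}.ncard : ℝ) := by
    intro X
    unfold cV
    rw [hset, Set.ncard_image_of_injective _ Subtype.val_injective]
  have hcV2 : ∀ (Z : Set (ClP p K₁)) (X : ℝ), (cV f (BSet p K ε ∩ A ∩ Z) X : ℝ) =
      ({c : (BSet p K ε ∩ A : Set (ClP p K₁)) |
        c ∈ {c : (BSet p K ε ∩ A : Set (ClP p K₁)) | c.1 ∈ Z} ∧ (f c.1 : ℝ) ≤ X}.ncard : ℝ) := by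
    intro Z X
    unfold cV
    rw [hset2, Set.ncard_image_of_injective _ Subtype.val_injective]
  intro η hη
  have hmain := hABS F₀ β n bad exb FT g Kc c X₁ θ C₁ δ' hFT hc hθ hC₁ hδ' hg ha1 ha2 ha3
    (BSet p K ε ∩ A : Set (ClP p K₁)) (fun c => f c.1)
    {c : (BSet p K ε ∩ A : Set (ClP p K₁)) | c.1 ∈ Bd}
    {c : (BSet p K ε ∩ A : Set (ClP p K₁)) | c.1 ∈ Ex} Φ hΦ hrange hcond hbd hexb'
    (by
      obtain ⟨X₀, hX₀, h⟩ := hdb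
      refine ⟨X₀, hX₀, fun X hX => ?_⟩
      have h1 := h X hX
      rw [hcV, hcV] at h1
      exact h1)
    (by
      filter_upwards [hEx] with X hX
      rw [hcV, hcV2] at hX
      exact hX) η hη
  filter_upwards [hmain] with X hX
  rw [hcV, hcV2]
  exact hX

end core

open Classical in
/-- **T_CLB**. -/
theorem t_clb : Pool.Agent.Helper42.TH.T_CLB := by
  intro hCLA hCND C hC
  obtain ⟨C', hC', hABS⟩ := hCLA C hC
  refine ⟨C', hC', ?_⟩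
  intro p hpF L K M K₁ M₁ _ _ _ _ _ _ _ _ _ _ _ _ _ ε δ P _ hs B g K₀ hslow θ C₁ δ' hθ hC₁ hδ'
    S₀ A Bd Ex f hS₀ hA hAne hf hdb hEx hE
  have hABS' : CLA0 C C' := hABS
  have hLAB : V_LAB := Pool.Agent.Helper42.PB.v_lab
  have hp : p.Prime := hpF.out
  have := hs.gK
  have := hs.st2
  have := hs.gMK
  have hG2 : IsGalois K₁ M₁ := IsGalois.tower_top_of_isGalois K K₁ M₁
  have hcop := hs.c2
  have hTRF : E_TRF := Pool.Agent.Helper40.RD.e_trf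
  have hTAU : D_TAU := Pool.Agent.Helper15.PP.d_tau Pool.Agent.Helper74.PP.p_lfi
  obtain ⟨F₀, hF₀, huq⟩ := hTAU p K₁ (up K₁ B.S) (up_finite B.S)
    {a : K₁ˣ | OmType p K ε (a : K₁) ∧ clp p a ∈ A}
  have hF₀1 : ∀ τ : F₀, OmType p K ε ((τ : K₁ˣ) : K₁) := fun τ => (hF₀ τ τ.2).1
  have hne : Nonempty F₀ := by
    obtain ⟨a, ha, haA⟩ := hAne
    obtain ⟨τ, ⟨h2, -⟩, -⟩ := huq a ⟨ha, haA⟩
    exact ⟨⟨τ, h2⟩⟩
  have hE' := fun τ : F₀ => hE τ (hF₀1 τ) (hF₀ τ τ.2).2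
  choose n E V s0 bad exb Kτ c X₁ hc hS1 hS2 hS3 hB hX using hE'
  have hL : ∀ τ : F₀, _ := fun τ => hLAB p ℂ_[p] L K M K₁ M₁ ε δ P hs B τ (n τ) (E τ)
    (V τ) (s0 τ) (hF₀1 τ)
  obtain ⟨Kc, c', X', hKc, hc', hcc, hX'⟩ := common (fun τ : F₀ => max K₀ (Kτ τ)) c X₁ hc
  obtain ⟨τ₀⟩ := hne
  have hne : Nonempty F₀ := ⟨τ₀⟩
  have hKc0 : Slow g Kc := slow_mono hslow ((le_max_left _ _).trans (hKc τ₀))
  have hval : ∀ W : HeightOneSpectrum (𝓞 K₁), ∃ W' : HeightOneSpectrum (𝓞 M₁), Above W' W ∧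
      ∀ x : K₁, ((p : ℤ) ∣ ordv W' (algebraMap K₁ M₁ x) ↔ (p : ℤ) ∣ ordv W x) := by
    intro W
    obtain ⟨W', hW'⟩ := exists_above' (E := M₁) W
    exact ⟨W', hW', (hTRF p K₁ M₁ hcop W' W hW').1⟩
  have hval1 : ∀ a : K₁ˣ, OmType p K ε (a : K₁) → ∀ v ∈ B.calP,
      ∀ W : HeightOneSpectrum (𝓞 K₁), Above W v →
      ((p : ℤ) ∣ ordv W (a : K₁) ↔ ordp p (B.Q v) a = 0) := by
    intro a ha v hv W hW
    obtain ⟨W', hW', hx⟩ := hval W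
    rw [← hx]
    exact ((hL τ₀).1 a ha).2.1 v hv W' (above_trans hW hW')
  have hval2 : ∀ a : K₁ˣ, OmType p K ε (a : K₁) → ∀ v ∉ B.S, v ∉ B.calP →
      ∀ W : HeightOneSpectrum (𝓞 K₁), Above W v → (p : ℤ) ∣ ordv W (a : K₁) := by
    intro a ha v hv hv' W hW
    obtain ⟨W', hW', hx⟩ := hval W
    rw [← hx]
    exact ((hL τ₀).1 a ha).2.2.1 v hv hv' W' (above_trans hW hW')
  have hFT : ∀ τ : F₀, ∃ F : ℕ, 1 ≤ F ∧ ∀ a : K₁ˣ, OmType p K ε (a : K₁) →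
      LocS p (up K₁ B.S) (a / (τ : K₁ˣ)) →
      f (clp p a) = F * nB B (B.lab a) := by
    intro τ
    obtain ⟨F, hF1, hF2⟩ := hCND p K K₁ ε S₀ B.S B.calP B.Q τ f hS₀ (fun v hv => hv.1)
      (fun v hv => (B.Qa v hv).1) hf (hF₀1 τ)
    exact ⟨F, hF1, fun a ha hl => hF2 a (B.lab a) ha hl (hval1 a ha)
      (fun v hv hv' W hW => hval2 a ha v hv hv' W hW)
      (Pool.Agent.Helper11.PP.mem_lab B ((hL τ₀).1 a ha).1)⟩
  choose FT hFT1 hFT2 using hFT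
  have e1 : ∀ (τ : F₀) (X : ℝ),
      {b : {b : Finset B.LP // (sysB B (E τ) (V τ) (s0 τ) τ).Fam b} |
        (nB B b.1 : ℝ) ≤ X}.ncard =
      {b | (sysB B (E τ) (V τ) (s0 τ) τ).Fam b ∧
        ((sysB B (E τ) (V τ) (s0 τ) τ).nm b : ℝ) ≤ X}.ncard :=
    fun τ X => sub_card (P := fun b => (sysB B (E τ) (V τ) (s0 τ) τ).Fam b)
      (f := (sysB B (E τ) (V τ) (s0 τ) τ).nm)
  refine coreE B hABS' S₀ hS₀ A hA f F₀ hne (fun c hc => hF₀ c hc)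
    (fun a h1 h2 => huq a ⟨h1, h2⟩)
    (fun τ b => (sysB B (E τ) (V τ) (s0 τ) τ).Fam b)
    (fun τ => {b | bad τ b.1}) (fun τ X => {b | exb τ X b.1})
    (fun τ a ha hl => ((hL τ).1 a ha).2.2.2 hl)
    (fun τ b hb => (hL τ).2.1 b hb)
    (fun τ a a' ha ha' hl hl' hlab => (hL τ).2.2.1 a a' ha ha' hl hl' hlab)
    Bd Ex (fun τ a _ hcB ha hl => hB τ a hcB ha hl) ?_ FT hFT1 hFT2
    g Kc c' X' θ C₁ δ' hc' hθ hC₁ hδ' hKc0 ?_ ?_ ?_ hdb hEx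
  · choose X₀ hX₀ using hX
    refine ⟨∑ τ, |X₀ τ|, fun X hXX τ a _ ha hl h1 h2 h3 => ?_⟩
    exact hX₀ τ X (((le_abs_self _).trans (Finset.single_le_sum (f := fun τ => |X₀ τ|)
        (fun i _ => abs_nonneg _) (Finset.mem_univ τ))).trans hXX) a ha hl h1 h2 h3
  · intro τ X hX
    obtain ⟨h1, h2⟩ := hS1 τ X hX
    refine ⟨sub_fin h1, ?_⟩
    rw [e1]
    refine h2.trans ?_
    refine mul_le_mul_of_nonneg_right ((le_max_right _ _).trans (hKc τ)) ?_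
    exact mul_nonneg hX.le (zero_le_one.trans (hslow.one X))
  · intro τ X hX hX1
    rw [e1]
    refine le_trans ?_ (hS2 τ X hX ((hX' τ).trans hX1))
    refine mul_le_mul_of_nonneg_right (hcc τ) ?_
    exact mul_nonneg hX.le (zero_le_one.trans (hslow.one X))
  · intro η hη
    have h1 := fun τ : F₀ => hS3 τ η hη
    choose X₀ hX₀ using h1
    refine ⟨∑ τ, |X₀ τ|, fun τ X hXX => ?_⟩
    have h2 := hX₀ τ X (((le_abs_self _).trans (Finset.single_le_sum (f := fun τ => |X₀ τ|)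
        (fun i _ => abs_nonneg _) (Finset.mem_univ τ))).trans hXX)
      ((sysB B (E τ) (V τ) (s0 τ) τ).upto X)
    refine ⟨((sysB B (E τ) (V τ) (s0 τ) τ).upto X).powerset.subtype
      (fun b => (sysB B (E τ) (V τ) (s0 τ) τ).Fam b), ?_, ?_⟩
    · intro b hb
      rw [Finset.mem_subtype, Finset.mem_powerset]
      intro q hq
      have h3 : (sysB B (E τ) (V τ) (s0 τ) τ).N q ≤ nB B b.1 := by
        refine Nat.le_of_dvd ?_ ?_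
        · refine Finset.prod_pos fun q' _ => ?_
          have := (sysB B (E τ) (V τ) (s0 τ) τ).two_le q'
          exact lt_of_lt_of_le (by norm_num) this
        · exact Finset.dvd_prod_of_mem (fun q : B.LP => Ideal.absNorm q.1.1.asIdeal) hq
      unfold Sys.upto
      rw [Set.Finite.mem_toFinset]
      refine Nat.le_floor (le_trans ?_ hb)
      exact_mod_cast h3
    · have k1 := sub_sum (fun b => (sysB B (E τ) (V τ) (s0 τ) τ).Fam b) (bad τ)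
        (fun b => b ∈ {b : {b // (sysB B (E τ) (V τ) (s0 τ) τ).Fam b} | bad τ b.1})
        (fun b => Iff.rfl) ((sysB B (E τ) (V τ) (s0 τ) τ).upto X).powerset
        (fun b => Real.exp (-(nB B b / X)))
      have k2 := sub_sum (fun b => (sysB B (E τ) (V τ) (s0 τ) τ).Fam b) (exb τ X)
        (fun b => b ∈ {b : {b // (sysB B (E τ) (V τ) (s0 τ) τ).Fam b} | exb τ X b.1})
        (fun b => Iff.rfl) ((sysB B (E τ) (V τ) (s0 τ) τ).upto X).powerset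
        (fun b => Real.exp (-(nB B b / X)))
      have k3 := Finset.sum_subtype_eq_sum_filter
        (s := ((sysB B (E τ) (V τ) (s0 τ) τ).upto X).powerset)
        (fun b => Real.exp (-(nB B b / X))) (p := fun b => (sysB B (E τ) (V τ) (s0 τ) τ).Fam b)
      refine le_trans (le_of_eq ?_) (h2.trans (le_of_eq ?_))
      · (convert k1; rfl)
      · refine congrArg₂ (· + ·) (congrArg₂ (· + ·) (congrArg (θ * ·) ?_)
          (congrArg (C₁ * ·) ?_)) rfl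
        · (convert k3.symm; rfl)
        · (convert k2.symm; rfl)

end Pool.Agent.Helper87.TH
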